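import Pool.Agent.Q256.Surv

/-!
The lamplighter graph over the two-way infinite path, with the lamps on the edges of the path:
vertices are pairs (finite set of lit edges, position), the edge `b` joins `b` and `b + 1`, and a
step traverses an edge and may toggle its lamp.
-/

namespace Pool.Agent.Q256.Lamp

open SimpleGraph Pool.Agent.Q256.Surv

/-- vertices -/
abbrev W := Finset ℤ × ℤ

/-- right end of the range that has to be visited -/
noncomputable def R (u v : W) : ℤ :=
  (insert u.2 (insert v.2 ((symmDiff u.1 v.1).image (· + 1)))).max' ⟨u.2, by simp⟩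

/-- left end of the range that has to be visited -/
noncomputable def L (u v : W) : ℤ :=
  (insert u.2 (insert v.2 (symmDiff u.1 v.1))).min' ⟨u.2, by simp⟩

theorem R_ge1 (u v : W) : u.2 ≤ R u v := Finset.le_max' _ _ (by simp)
theorem R_ge2 (u v : W) : v.2 ≤ R u v := Finset.le_max' _ _ (by simp)
theorem R_ge3 (u v : W) (b : ℤ) (hb : b ∈ symmDiff u.1 v.1) : b + 1 ≤ R u v := by
  refine Finset.le_max' _ _ ?_
  rw [Finset.mem_insert, Finset.mem_insert]
  exact Or.inr (Or.inr (Finset.mem_image_of_mem _ hb))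

theorem R_le (u v : W) (r : ℤ) (h1 : u.2 ≤ r) (h2 : v.2 ≤ r)
    (h3 : ∀ b ∈ symmDiff u.1 v.1, b + 1 ≤ r) : R u v ≤ r := by
  refine Finset.max'_le _ _ _ ?_
  intro y hy
  rw [Finset.mem_insert, Finset.mem_insert, Finset.mem_image] at hy
  rcases hy with rfl | rfl | ⟨b, hb, rfl⟩
  · exact h1
  · exact h2
  · exact h3 b hb

theorem L_le1 (u v : W) : L u v ≤ u.2 := Finset.min'_le _ _ (by simp)
theorem L_le2 (u v : W) : L u v ≤ v.2 := Finset.min'_le _ _ (by simp)
theorem L_le3 (u v : W) (b : ℤ) (hb : b ∈ symmDiff u.1 v.1) : L u v ≤ b := by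
  refine Finset.min'_le _ _ ?_
  rw [Finset.mem_insert, Finset.mem_insert]
  exact Or.inr (Or.inr hb)

theorem le_L (u v : W) (l : ℤ) (h1 : l ≤ u.2) (h2 : l ≤ v.2)
    (h3 : ∀ b ∈ symmDiff u.1 v.1, l ≤ b) : l ≤ L u v := by
  refine Finset.le_min' _ _ _ ?_
  intro y hy
  rw [Finset.mem_insert, Finset.mem_insert] at hy
  rcases hy with rfl | rfl | hb
  · exact h1
  · exact h2
  · exact h3 _ hb

/-- the metric -/
noncomputable def D (u v : W) : ℕ := (2 * (R u v - L u v) - (u.2 - v.2).natAbs).toNat

theorem D_int (u v : W) : (D u v : ℤ) = 2 * (R u v - L u v) - (u.2 - v.2).natAbs := by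
  have h1 := R_ge1 u v
  have h2 := R_ge2 u v
  have h3 := L_le1 u v
  have h4 := L_le2 u v
  unfold D
  omega

theorem R_symm (u v : W) : R u v = R v u := by
  apply le_antisymm
  · refine R_le _ _ _ (R_ge2 _ _) (R_ge1 _ _) ?_
    intro b hb
    rw [symmDiff_comm] at hb
    exact R_ge3 _ _ _ hb
  · refine R_le _ _ _ (R_ge2 _ _) (R_ge1 _ _) ?_
    intro b hb
    rw [symmDiff_comm] at hb
    exact R_ge3 _ _ _ hb

theorem L_symm (u v : W) : L u v = L v u := by
  apply le_antisymm
  · refine le_L _ _ _ (L_le2 _ _) (L_le1 _ _) ?_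
    intro b hb
    rw [symmDiff_comm] at hb
    exact L_le3 _ _ _ hb
  · refine le_L _ _ _ (L_le2 _ _) (L_le1 _ _) ?_
    intro b hb
    rw [symmDiff_comm] at hb
    exact L_le3 _ _ _ hb

theorem mem_tri {A B C : Finset ℤ} {b : ℤ} (h : b ∈ symmDiff A C) :
    b ∈ symmDiff A B ∨ b ∈ symmDiff B C := by
  rw [Finset.mem_symmDiff] at *
  rw [Finset.mem_symmDiff]
  tauto

theorem R_tri (u v w : W) : R u w ≤ max (R u v) (R v w) := by
  refine R_le _ _ _ ((R_ge1 u v).trans (le_max_left _ _)) ((R_ge2 v w).trans (le_max_right _ _)) ?_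
  intro b hb
  rcases mem_tri (B := v.1) hb with h | h
  · exact (R_ge3 u v b h).trans (le_max_left _ _)
  · exact (R_ge3 v w b h).trans (le_max_right _ _)

theorem L_tri (u v w : W) : min (L u v) (L v w) ≤ L u w := by
  refine le_L _ _ _ ((min_le_left _ _).trans (L_le1 u v)) ((min_le_right _ _).trans (L_le2 v w)) ?_
  intro b hb
  rcases mem_tri (B := v.1) hb with h | h
  · exact (min_le_left _ _).trans (L_le3 u v b h)
  · exact (min_le_right _ _).trans (L_le3 v w b h)

theorem D_self (u : W) : D u u = 0 := by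
  have h1 : R u u ≤ u.2 := R_le _ _ _ le_rfl le_rfl (by simp)
  have h2 : u.2 ≤ L u u := le_L _ _ _ le_rfl le_rfl (by simp)
  have h3 := R_ge1 u u
  have h4 := L_le1 u u
  have h5 := D_int u u
  omega

theorem D_symm (u v : W) : D u v = D v u := by
  have h1 := D_int u v
  have h2 := D_int v u
  have h3 := R_symm u v
  have h4 := L_symm u v
  omega

theorem D_tri (u v w : W) : D u w ≤ D u v + D v w := by
  have h1 := D_int u v
  have h2 := D_int v w
  have h3 := D_int u w
  have h4 := R_tri u v w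
  have h5 := L_tri u v w
  have a1 := R_ge1 u v
  have a2 := R_ge2 u v
  have a3 := L_le1 u v
  have a4 := L_le2 u v
  have b1 := R_ge1 v w
  have b2 := R_ge2 v w
  have b3 := L_le1 v w
  have b4 := L_le2 v w
  omega

theorem D_eq (u v : W) (h : D u v = 0) : u = v := by
  have h1 := D_int u v
  have a1 := R_ge1 u v
  have a2 := R_ge2 u v
  have a3 := L_le1 u v
  have a4 := L_le2 u v
  refine Prod.ext ?_ (by omega)
  rw [← symmDiff_eq_bot, Finset.bot_eq_empty, Finset.eq_empty_iff_forall_notMem]
  intro b hb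
  have b1 := R_ge3 u v b hb
  have b2 := L_le3 u v b hb
  omega

/-- one step: same or one toggled lamp -/
theorem D_step (v w : W) (l : ℤ) (h : (v.2 = l ∧ w.2 = l + 1) ∨ (v.2 = l + 1 ∧ w.2 = l))
    (hs : ∀ b ∈ symmDiff v.1 w.1, b = l) : D v w = 1 := by
  have h1 := D_int v w
  have h2 : R v w ≤ l + 1 := R_le _ _ _ (by omega) (by omega) (fun b hb => by rw [hs b hb])
  have h3 : l ≤ L v w := le_L _ _ _ (by omega) (by omega) (fun b hb => by rw [hs b hb])
  have a1 := R_ge1 v w
  have a2 := R_ge2 v w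
  have a3 := L_le1 v w
  have a4 := L_le2 v w
  omega

/-- switching lamp `b` of `C` to its state in `B` -/
def fix (B C : Finset ℤ) (b : ℤ) : Finset ℤ := if b ∈ B then insert b C else C.erase b

theorem mem_fix1 (B C : Finset ℤ) (b c : ℤ) : c ∈ symmDiff C (fix B C b) → c = b := by
  unfold fix
  rw [Finset.mem_symmDiff]
  split_ifs with h
  · rw [Finset.mem_insert]; tauto
  · rw [Finset.mem_erase]; tauto

theorem mem_fix2 (B C : Finset ℤ) (b c : ℤ) :
    c ∈ symmDiff B (fix B C b) ↔ c ≠ b ∧ c ∈ symmDiff B C := by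
  unfold fix
  rw [Finset.mem_symmDiff, Finset.mem_symmDiff]
  by_cases hc : c = b
  · subst hc
    split_ifs with h
    · simp [h]
    · simp [h]
  · split_ifs with h
    · rw [Finset.mem_insert]; tauto
    · rw [Finset.mem_erase]; tauto

theorem D_desc (u v : W) (h : u ≠ v) : ∃ w, D v w = 1 ∧ D u v = D u w + 1 := by
  have h1 := D_int u v
  have a1 := R_ge1 u v
  have a2 := R_ge2 u v
  have a3 := L_le1 u v
  have a4 := L_le2 u v
  by_cases hzy : v.2 ≤ u.2
  · by_cases hL : L u v < v.2
    · -- move left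
      refine ⟨(v.1, v.2 - 1), D_step _ _ (v.2 - 1) (Or.inr ⟨by simp, by simp⟩) (by simp), ?_⟩
      have h2 := D_int u (v.1, v.2 - 1)
      have e1 : R u (v.1, v.2 - 1) ≤ R u v :=
        R_le _ _ _ a1 (by simp only; omega) (fun b hb => R_ge3 u v b hb)
      have e2 : R u v ≤ R u (v.1, v.2 - 1) :=
        R_le _ _ _ (R_ge1 _ _) (hzy.trans (R_ge1 _ _)) (fun b hb => R_ge3 u (v.1, v.2 - 1) b hb)
      have e3 : L u v ≤ L u (v.1, v.2 - 1) :=
        le_L _ _ _ a3 (by simp only; omega) (fun b hb => L_le3 u v b hb)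
      have e4 : L u (v.1, v.2 - 1) ≤ L u v := by
        have f2 := L_le2 u (v.1, v.2 - 1)
        exact le_L _ _ _ (L_le1 _ _) (by simp only at f2; omega)
          (fun b hb => L_le3 u (v.1, v.2 - 1) b hb)
      simp only at h2
      omega
    · by_cases hlt : v.2 < u.2
      · -- move right, switching the lamp
        refine ⟨(fix u.1 v.1 v.2, v.2 + 1), D_step _ _ v.2 (Or.inl ⟨rfl, rfl⟩)
          (fun b hb => mem_fix1 _ _ _ _ hb), ?_⟩
        have h2 := D_int u (fix u.1 v.1 v.2, v.2 + 1)
        have e1 : R u (fix u.1 v.1 v.2, v.2 + 1) ≤ R u v :=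
          R_le _ _ _ a1 (by simp only; omega)
            (fun b hb => R_ge3 u v b ((mem_fix2 _ _ _ _).1 hb).2)
        have e2 : R u v ≤ R u (fix u.1 v.1 v.2, v.2 + 1) := by
          have f1 := R_ge1 u (fix u.1 v.1 v.2, v.2 + 1)
          refine R_le _ _ _ (R_ge1 _ _) (hzy.trans (R_ge1 _ _)) (fun b hb => ?_)
          by_cases hbv : b = v.2
          · omega
          · exact R_ge3 u (fix u.1 v.1 v.2, v.2 + 1) b ((mem_fix2 _ _ _ _).2 ⟨hbv, hb⟩)
        have e3 : v.2 + 1 ≤ L u (fix u.1 v.1 v.2, v.2 + 1) := by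
          refine le_L _ _ _ (by omega) le_rfl (fun b hb => ?_)
          have f1 := (mem_fix2 _ _ _ _).1 hb
          have f2 := L_le3 u v b f1.2
          omega
        have e4 := L_le2 u (fix u.1 v.1 v.2, v.2 + 1)
        simp only at h2 e4
        omega
      · -- same position, everything to the right
        have hyz : u.2 = v.2 := by omega
        have hR : v.2 < R u v := by
          by_contra hcon
          apply h
          refine Prod.ext ?_ hyz
          rw [← symmDiff_eq_bot, Finset.bot_eq_empty, Finset.eq_empty_iff_forall_notMem]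
          intro b hb
          have b1 := R_ge3 u v b hb
          have b2 := L_le3 u v b hb
          omega
        refine ⟨(v.1, v.2 + 1), D_step _ _ v.2 (Or.inl ⟨rfl, rfl⟩) (by simp), ?_⟩
        have h2 := D_int u (v.1, v.2 + 1)
        have e1 : R u (v.1, v.2 + 1) ≤ R u v :=
          R_le _ _ _ a1 (by simp only; omega) (fun b hb => R_ge3 u v b hb)
        have e2 : R u v ≤ R u (v.1, v.2 + 1) :=
          R_le _ _ _ (R_ge1 _ _) (hzy.trans (R_ge1 _ _)) (fun b hb => R_ge3 u (v.1, v.2 + 1) b hb)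
        have e3 : L u v ≤ L u (v.1, v.2 + 1) :=
          le_L _ _ _ a3 (by simp only; omega) (fun b hb => L_le3 u v b hb)
        have e4 : L u (v.1, v.2 + 1) ≤ L u v := by
          have f2 := L_le1 u (v.1, v.2 + 1)
          exact le_L _ _ _ (L_le1 _ _) (by omega)
            (fun b hb => L_le3 u (v.1, v.2 + 1) b hb)
        simp only at h2
        omega
  · by_cases hR : v.2 < R u v
    · -- move right
      refine ⟨(v.1, v.2 + 1), D_step _ _ v.2 (Or.inl ⟨rfl, rfl⟩) (by simp), ?_⟩
      have h2 := D_int u (v.1, v.2 + 1)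
      have e1 : R u (v.1, v.2 + 1) ≤ R u v :=
        R_le _ _ _ a1 (by simp only; omega) (fun b hb => R_ge3 u v b hb)
      have e2 : R u v ≤ R u (v.1, v.2 + 1) := by
        have f2 := R_ge2 u (v.1, v.2 + 1)
        exact R_le _ _ _ (R_ge1 _ _) (by simp only at f2; omega)
          (fun b hb => R_ge3 u (v.1, v.2 + 1) b hb)
      have e3 : L u v ≤ L u (v.1, v.2 + 1) :=
        le_L _ _ _ a3 (by simp only; omega) (fun b hb => L_le3 u v b hb)
      have e4 : L u (v.1, v.2 + 1) ≤ L u v := by
        have f2 := L_le1 u (v.1, v.2 + 1)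
        exact le_L _ _ _ (L_le1 _ _) (by omega)
          (fun b hb => L_le3 u (v.1, v.2 + 1) b hb)
      simp only at h2
      omega
    · -- move left, switching the lamp
      refine ⟨(fix u.1 v.1 (v.2 - 1), v.2 - 1), D_step _ _ (v.2 - 1)
        (Or.inr ⟨by simp, by simp⟩) (fun b hb => mem_fix1 _ _ _ _ hb), ?_⟩
      have h2 := D_int u (fix u.1 v.1 (v.2 - 1), v.2 - 1)
      have e1 : R u (fix u.1 v.1 (v.2 - 1), v.2 - 1) ≤ v.2 - 1 := by
        refine R_le _ _ _ (by omega) le_rfl (fun b hb => ?_)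
        have f1 := (mem_fix2 _ _ _ _).1 hb
        have f2 := R_ge3 u v b f1.2
        omega
      have e2 := R_ge2 u (fix u.1 v.1 (v.2 - 1), v.2 - 1)
      have e3 : L u v ≤ L u (fix u.1 v.1 (v.2 - 1), v.2 - 1) :=
        le_L _ _ _ a3 (by simp only; omega) (fun b hb => L_le3 u v b ((mem_fix2 _ _ _ _).1 hb).2)
      have e4 : L u (fix u.1 v.1 (v.2 - 1), v.2 - 1) ≤ L u v := by
        have f1 := L_le1 u (fix u.1 v.1 (v.2 - 1), v.2 - 1)
        refine le_L _ _ _ f1 (by omega) (fun b hb => ?_)
        by_cases hbv : b = v.2 - 1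
        · omega
        · exact L_le3 u (fix u.1 v.1 (v.2 - 1), v.2 - 1) b ((mem_fix2 _ _ _ _).2 ⟨hbv, hb⟩)
      simp only at h2 e2
      omega

theorem geo : GeoMetric D := ⟨D_self, D_eq, D_symm, D_tri, D_desc⟩

/-- the lamplighter graph -/
noncomputable def G : SimpleGraph W := ofD D geo

theorem G_dist (u v : W) : G.dist u v = D u v := ofD_dist D geo u v
theorem G_conn : G.Connected := ofD_connected D geo

noncomputable instance instLF : G.LocallyFinite := fun v => by
  apply Set.Finite.fintype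
  refine (Finset.finite_toSet (({v.1, symmDiff v.1 {v.2}, symmDiff v.1 {v.2 - 1}} :
    Finset (Finset ℤ)) ×ˢ ({v.2 - 1, v.2 + 1} : Finset ℤ))).subset ?_
  intro u hu
  have h1 : D v u = 1 := hu
  have h2 := D_int v u
  have a1 := R_ge1 v u
  have a2 := R_ge2 v u
  have a3 := L_le1 v u
  have a4 := L_le2 v u
  have hs : ∀ b ∈ symmDiff v.1 u.1, b = L v u := by
    intro b hb
    have b1 := R_ge3 v u b hb
    have b2 := L_le3 v u b hb
    omega
  rw [Finset.mem_coe, Finset.mem_product]
  constructor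
  · have h3 : symmDiff v.1 u.1 = ∅ ∨ symmDiff v.1 u.1 = {L v u} := by
      rcases Finset.eq_empty_or_nonempty (symmDiff v.1 u.1) with h | ⟨b, hb⟩
      · exact Or.inl h
      · right
        apply Finset.eq_singleton_iff_unique_mem.2
        refine ⟨by rw [← hs b hb]; exact hb, hs⟩
    have h5 : L v u = v.2 ∨ L v u = v.2 - 1 := by omega
    simp only [Finset.mem_insert, Finset.mem_singleton]
    rcases h3 with h3 | h3
    · left
      exact (symmDiff_eq_bot.1 h3).symm
    · have h4 : u.1 = symmDiff v.1 {L v u} := by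
        rw [← h3, symmDiff_symmDiff_cancel_left]
      rcases h5 with h5 | h5
      · rw [h5] at h4; tauto
      · rw [h5] at h4; tauto
  · simp only [Finset.mem_insert, Finset.mem_singleton]
    omega

/-! ### vertex-transitivity -/

/-- changing lamps -/
def flip (S : Finset ℤ) : W ≃ W where
  toFun u := (symmDiff u.1 S, u.2)
  invFun u := (symmDiff u.1 S, u.2)
  left_inv u := by simp
  right_inv u := by simp

/-- translations -/
def shift (k : ℤ) : W ≃ W where
  toFun u := (u.1.map (Equiv.addRight k).toEmbedding, u.2 + k)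
  invFun u := (u.1.map (Equiv.addRight (-k)).toEmbedding, u.2 - k)
  left_inv u := by
    refine Prod.ext ?_ (by simp)
    ext b; simp
  right_inv u := by
    refine Prod.ext ?_ (by simp)
    ext b; simp

theorem D_flip (S : Finset ℤ) (u v : W) : D (flip S u) (flip S v) = D u v := by
  have h : symmDiff (flip S u).1 (flip S v).1 = symmDiff u.1 v.1 := by
    change symmDiff (symmDiff u.1 S) (symmDiff v.1 S) = _
    rw [symmDiff_symmDiff_symmDiff_comm, symmDiff_self, symmDiff_bot]
  have h1 : R (flip S u) (flip S v) = R u v := by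
    unfold R
    congr 1
    rw [h]
    rfl
  have h2 : L (flip S u) (flip S v) = L u v := by
    unfold L
    congr 1
    rw [h]
    rfl
  unfold D
  rw [h1, h2]
  rfl

theorem mem_shift (k : ℤ) (u v : W) (b : ℤ) :
    b ∈ symmDiff (shift k u).1 (shift k v).1 ↔ b - k ∈ symmDiff u.1 v.1 := by
  rw [Finset.mem_symmDiff, Finset.mem_symmDiff]
  have h : ∀ w : W, b ∈ (shift k w).1 ↔ b - k ∈ w.1 := by
    intro w
    change b ∈ w.1.map _ ↔ _
    rw [Finset.mem_map]
    constructor
    · rintro ⟨c, hc, rfl⟩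
      simpa using hc
    · intro h
      exact ⟨b - k, h, by simp⟩
  rw [h, h]

theorem D_shift (k : ℤ) (u v : W) : D (shift k u) (shift k v) = D u v := by
  have e : ∀ w : W, (shift k w).2 = w.2 + k := fun w => rfl
  have h1 : R (shift k u) (shift k v) ≤ R u v + k := by
    refine R_le _ _ _ (by have := R_ge1 u v; rw [e]; omega) (by have := R_ge2 u v; rw [e]; omega) ?_
    intro b hb
    have := R_ge3 u v (b - k) ((mem_shift k u v b).1 hb)
    omega
  have h2 : R u v ≤ R (shift k u) (shift k v) - k := by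
    have a1 := R_ge1 (shift k u) (shift k v)
    have a2 := R_ge2 (shift k u) (shift k v)
    rw [e] at a1 a2
    refine R_le _ _ _ (by omega) (by omega) ?_
    intro b hb
    have := R_ge3 (shift k u) (shift k v) (b + k) ((mem_shift k u v _).2 (by simpa using hb))
    omega
  have h3 : L u v + k ≤ L (shift k u) (shift k v) := by
    refine le_L _ _ _ (by have := L_le1 u v; rw [e]; omega) (by have := L_le2 u v; rw [e]; omega) ?_
    intro b hb
    have := L_le3 u v (b - k) ((mem_shift k u v b).1 hb)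
    omega
  have h4 : L (shift k u) (shift k v) - k ≤ L u v := by
    have a1 := L_le1 (shift k u) (shift k v)
    have a2 := L_le2 (shift k u) (shift k v)
    rw [e] at a1 a2
    refine le_L _ _ _ (by omega) (by omega) ?_
    intro b hb
    have := L_le3 (shift k u) (shift k v) (b + k) ((mem_shift k u v _).2 (by simpa using hb))
    omega
  have h5 := D_int u v
  have h6 := D_int (shift k u) (shift k v)
  rw [e, e] at h6
  omega

theorem G_vt : VertexTransitive G := by
  intro u v
  refine ⟨⟨(shift (v.2 - u.2)).trans (flip (symmDiff (shift (v.2 - u.2) u).1 v.1)), ?_⟩, ?_⟩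
  · intro a b
    change D (flip _ (shift _ a)) (flip _ (shift _ b)) = 1 ↔ D a b = 1
    rw [D_flip, D_shift]
  · change flip _ (shift _ u) = v
    refine Prod.ext ?_ ?_
    · change symmDiff (shift (v.2 - u.2) u).1 (symmDiff (shift (v.2 - u.2) u).1 v.1) = v.1
      rw [symmDiff_symmDiff_cancel_left]
    · change u.2 + (v.2 - u.2) = v.2
      ring

end Pool.Agent.Q256.Lamp
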