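import Mathlib

/-!
# Local Zariski closures of a cone of rational points which is invariant under families of matrices
-/

set_option autoImplicit false

namespace Pool.Agent.Q256.Orb

open MvPolynomial Topology Matrix

universe u v

section sub

variable {R : Type u} [CommRing R] {N : Type} [Fintype N]

/-- the polynomial `f ∘ M` -/
noncomputable def sub (M : Matrix N N R) (f : MvPolynomial N R) : MvPolynomial N R :=
  bind₁ (fun i => ∑ j, C (M i j) * X j) f

theorem eval_sub (M : Matrix N N R) (f : MvPolynomial N R) (z : N → R) :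
    eval z (sub M f) = eval (M *ᵥ z) f := by
  unfold sub
  have h := eval₂Hom_bind₁ (RingHom.id R) z (fun i => ∑ j, C (M i j) * X j) f
  have h1 : ∀ g : MvPolynomial N R, eval z g = eval₂Hom (RingHom.id R) z g := fun g => rfl
  rw [h1, h]
  show eval _ f = _
  congr 1
  congr 1
  funext i
  simp [Matrix.mulVec, dotProduct]

theorem sub_sub (M M' : Matrix N N R) (f : MvPolynomial N R) :
    sub M (sub M' f) = sub (M' * M) f := by
  classical
  unfold sub
  rw [bind₁_bind₁]
  congr 1
  congr 1
  funext i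
  simp only [map_sum, map_mul, bind₁_X_right, bind₁_C_right, Matrix.mul_apply, Finset.mul_sum,
    Finset.sum_mul]
  rw [Finset.sum_comm]
  refine Finset.sum_congr rfl fun j _ => Finset.sum_congr rfl fun k _ => ?_
  rw [mul_assoc]

theorem sub_one [DecidableEq N] (f : MvPolynomial N R) : sub (1 : Matrix N N R) f = f := by
  unfold sub
  have : (fun i : N => ∑ j, C ((1 : Matrix N N R) i j) * (X j : MvPolynomial N R)) = X := by
    funext i
    rw [Finset.sum_eq_single i]
    · simp
    · intro j _ hj
      simp [Matrix.one_apply_ne (Ne.symm hj)]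
    · simp
  rw [this, bind₁_X_left]
  rfl

theorem sub_add (M : Matrix N N R) (f g : MvPolynomial N R) : sub M (f + g) = sub M f + sub M g :=
  map_add _ _ _

theorem sub_mul (M : Matrix N N R) (f g : MvPolynomial N R) : sub M (f * g) = sub M f * sub M g :=
  map_mul _ _ _

end sub

section van

variable {F : Type u} [Field F] {N : Type} [Fintype N] [DecidableEq N]

/-- The ideal of the polynomials which vanish on the cone over the orbit of `y`. -/
noncomputable def van (Γ : Submonoid (Matrix N N F)) (y : N → F) : Ideal (MvPolynomial N F) where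
  carrier := {f | ∀ w ∈ Γ, ∀ c : F, eval (c • (w *ᵥ y)) f = 0}
  add_mem' := by
    intro f g hf hg w hw c
    rw [map_add, hf w hw c, hg w hw c, add_zero]
  zero_mem' := by
    intro w _ c
    simp
  smul_mem' := by
    intro a f hf w hw c
    rw [smul_eq_mul, map_mul, hf w hw c, mul_zero]

theorem mem_van {Γ : Submonoid (Matrix N N F)} {y : N → F} {f : MvPolynomial N F} :
    f ∈ van Γ y ↔ ∀ w ∈ Γ, ∀ c : F, eval (c • (w *ᵥ y)) f = 0 := Iff.rfl

theorem van_sub {Γ : Submonoid (Matrix N N F)} {y : N → F} {f : MvPolynomial N F}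
    (hf : f ∈ van Γ y) {w : Matrix N N F} (hw : w ∈ Γ) : sub w f ∈ van Γ y := by
  intro w' hw' c
  rw [eval_sub, Matrix.mulVec_smul, Matrix.mulVec_mulVec]
  exact hf _ (mul_mem hw hw') c

/-- substitution as a ring homomorphism -/
noncomputable def subHom (M : Matrix N N F) : MvPolynomial N F →+* MvPolynomial N F where
  toFun := sub M
  map_one' := map_one (bind₁ (fun i => ∑ j, C (M i j) * X j))
  map_mul' := sub_mul M
  map_zero' := map_zero (bind₁ (fun i => ∑ j, C (M i j) * X j))
  map_add' := sub_add M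

omit [DecidableEq N] in
theorem subHom_apply (M : Matrix N N F) (f : MvPolynomial N F) : subHom M f = sub M f := rfl

theorem comap_inj {g g' : Matrix N N F} (h2 : g' * g = 1) :
    Function.Injective (Ideal.comap (subHom g)) := by
  intro I J h
  have h3 : ∀ I : Ideal (MvPolynomial N F), ∀ f, f ∈ I ↔ sub g' f ∈ Ideal.comap (subHom g) I := by
    intro I f
    rw [Ideal.mem_comap, subHom_apply, sub_sub, h2, sub_one]
  ext f
  rw [h3 I, h3 J, h]

/-- an ideal of polynomials which is stable under an invertible substitution is stable under the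
inverse -/
theorem noeth (I : Ideal (MvPolynomial N F)) {g g' : Matrix N N F} (h2 : g' * g = 1)
    (hI : ∀ f ∈ I, sub g f ∈ I) : ∀ f ∈ I, sub g' f ∈ I := by
  have hle : I ≤ Ideal.comap (subHom g) I := fun f hf => hI f hf
  have hmono : Monotone fun n : ℕ => (Ideal.comap (subHom g))^[n] I := by
    refine monotone_nat_of_le_succ fun n => ?_
    rw [Function.iterate_succ_apply]
    exact (Monotone.iterate (fun _ _ h => Ideal.comap_mono h) n) hle
  obtain ⟨n, hn⟩ := monotone_stabilizes_iff_noetherian.2
    (inferInstance : IsNoetherian (MvPolynomial N F) (MvPolynomial N F)) ⟨_, hmono⟩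
  have h3 := hn (n + 1) (Nat.le_succ n)
  have h4 : (Ideal.comap (subHom g))^[n] I =
      (Ideal.comap (subHom g))^[n] (Ideal.comap (subHom g) I) := by
    rw [← Function.iterate_succ_apply]
    exact h3
  have h5 : I = Ideal.comap (subHom g) I := (comap_inj h2).iterate n h4
  intro f hf
  rw [h5, Ideal.mem_comap, subHom_apply, sub_sub, h2, sub_one]
  exact hf

theorem van_mul {Γ : Submonoid (Matrix N N F)} {g g' : Matrix N N F} (hg : g ∈ Γ)
    (h2 : g' * g = 1) (y : N → F) : van Γ (g *ᵥ y) = van Γ y := by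
  refine le_antisymm ?_ ?_
  · intro h hh w hw c
    have key := noeth (van Γ (g *ᵥ y)) h2 (fun f hf => van_sub hf hg)
    have h3 : sub g' (sub w h) ∈ van Γ (g *ᵥ y) := key _ (van_sub hh hw)
    have h4 := h3 1 (one_mem Γ) c
    rw [eval_sub, Matrix.one_mulVec, Matrix.mulVec_smul, Matrix.mulVec_mulVec, h2,
      Matrix.one_mulVec, eval_sub, Matrix.mulVec_smul] at h4
    exact h4
  · intro f hf w hw c
    rw [Matrix.mulVec_mulVec]
    exact hf _ (mul_mem hw hg) c

theorem van_smul (Γ : Submonoid (Matrix N N F)) {c : F} (hc : c ≠ 0) (y : N → F) :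
    van Γ (c • y) = van Γ y := by
  refine le_antisymm ?_ ?_
  · intro f hf w hw d
    have := hf w hw (d * c⁻¹)
    rwa [Matrix.mulVec_smul, smul_smul, mul_assoc, inv_mul_cancel₀ hc, mul_one] at this
  · intro f hf w hw d
    rw [Matrix.mulVec_smul, smul_smul]
    exact hf w hw _

theorem van_group {Γ : Submonoid (Matrix N N F)} {g : (Matrix N N F)ˣ}
    (hg : g ∈ Subgroup.closure {g : (Matrix N N F)ˣ | (g : Matrix N N F) ∈ Γ}) :
    ∀ y : N → F, van Γ ((g : Matrix N N F) *ᵥ y) = van Γ y := by
  induction hg using Subgroup.closure_induction with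
  | mem g hg =>
    intro y
    exact van_mul (g' := ((g⁻¹ : (Matrix N N F)ˣ) : Matrix N N F)) hg (by simp) y
  | one => intro y; simp
  | mul a b _ _ ha hb =>
    intro y
    rw [Units.val_mul, ← Matrix.mulVec_mulVec, ha, hb]
  | inv a _ ha =>
    intro y
    rw [← ha, Matrix.mulVec_mulVec, ← Units.val_mul, mul_inv_cancel, Units.val_one,
      Matrix.one_mulVec]

end van

section ext

variable {K : Type u} [Field K] [Infinite K] {E : Type v} [Field E] [Algebra K E]
  {N : Type} [Fintype N] [DecidableEq N] {ι μ : Type}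

theorem dens (p : MvPolynomial μ E)
    (h : ∀ s : μ → K, eval (fun i => algebraMap K E (s i)) p = 0) : p = 0 := by
  refine funext_set (fun _ => Set.range (algebraMap K E))
    (fun _ => Set.infinite_range_of_injective (algebraMap K E).injective) ?_
  intro x hx
  have hx' : ∀ i, ∃ a, algebraMap K E a = x i := fun i => hx i (Set.mem_univ i)
  choose s hs using hx'
  have := h s
  rw [map_zero]
  convert this using 2
  congr 1
  funext i
  exact (hs i).symm

/-- the members of a polynomial family of matrices, over an extension of `K` -/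
noncomputable def mat (E : Type v) [Field E] [Algebra K E]
    (P : ι → Matrix N N (MvPolynomial μ K)) (i : ι) (s : μ → E) : Matrix N N E :=
  (P i).map (aeval s)

/-- the monoid generated by the members of the families -/
noncomputable def gam (E : Type v) [Field E] [Algebra K E]
    (P : ι → Matrix N N (MvPolynomial μ K)) : Submonoid (Matrix N N E) :=
  Submonoid.closure {M | ∃ i s, M = mat E P i s}

omit [Infinite K] [Fintype N] [DecidableEq N] in
theorem mat_map (P : ι → Matrix N N (MvPolynomial μ K)) (i : ι) (s : μ → K) :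
    (mat K P i s).map (algebraMap K E) = mat E P i (fun j => algebraMap K E (s j)) := by
  ext j k
  simp only [mat, Matrix.map_apply]
  exact (aeval_algebraMap_apply E s (P i j k)).symm

omit [Infinite K] [DecidableEq N] in
theorem aeval_sub (M : Matrix N N K) (f : MvPolynomial N K) (z : N → E) :
    aeval z (sub M f) = aeval ((M.map (algebraMap K E)) *ᵥ z) f := by
  unfold sub
  rw [aeval_bind₁]
  congr 2
  funext i
  simp [Matrix.mulVec, dotProduct]

omit [Infinite K] in
theorem sub_smul_mem {Γ : Submonoid (Matrix N N K)} {y : N → K} {f : MvPolynomial N K}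
    (hf : f ∈ van Γ y) (c : K) : sub (c • (1 : Matrix N N K)) f ∈ van Γ y := by
  intro w hw d
  rw [eval_sub, Matrix.smul_mulVec, Matrix.one_mulVec, smul_smul]
  exact hf w hw _

theorem map_mem_van (P : ι → Matrix N N (MvPolynomial μ K)) (y : N → K)
    {f : MvPolynomial N K} (hf : f ∈ van (gam K P) y) :
    map (algebraMap K E) f ∈ van (gam E P) (fun i => algebraMap K E (y i)) := by
  let V : Set (N → E) := {z | ∀ f ∈ van (gam K P) y, aeval z f = 0}
  have hsc : ∀ z ∈ V, ∀ c : E, c • z ∈ V := by
    intro z hz c f hf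
    let p : MvPolynomial Unit E := aeval (fun j => X () * C (z j)) f
    have hp : ∀ c : E, eval (fun _ => c) p = aeval (c • z) f := by
      intro c
      show (eval (fun _ => c)) (aeval (fun j => X () * C (z j)) f) = _
      have h1 : ∀ q : MvPolynomial Unit E, eval (fun _ => c) q = aeval (fun _ : Unit => c) q := by
        intro q; rw [← coe_aeval_eq_eval]; rfl
      rw [h1]
      have h2 := (AlgHom.restrictScalars K (aeval (R := E) (fun _ : Unit => c))).comp_apply
        (aeval (fun j => X () * C (z j))) f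
      rw [comp_aeval] at h2
      refine h2.symm.trans ?_
      congr 2
      funext j
      simp
    have h0 : p = 0 := by
      refine dens (K := K) p fun s => ?_
      have h1 : (fun i : Unit => algebraMap K E (s i)) = fun _ => algebraMap K E (s ()) := by
        funext i; cases i; rfl
      rw [h1, hp]
      have h2 := hz _ (sub_smul_mem hf (s ()))
      rw [aeval_sub] at h2
      convert h2 using 2
      congr 1
      funext i
      rw [Matrix.mulVec, dotProduct, Finset.sum_eq_single i]
      · simp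
      · intro j _ hj
        simp [Matrix.one_apply_ne (Ne.symm hj)]
      · simp
    rw [← hp, h0, map_zero]
  have hfam : ∀ z ∈ V, ∀ i, ∀ s : μ → E, (mat E P i s) *ᵥ z ∈ V := by
    intro z hz i s f hf
    let p : MvPolynomial μ E := aeval (fun j => ∑ k, map (algebraMap K E) (P i j k) * C (z k)) f
    have hp : ∀ s : μ → E, eval s p = aeval ((mat E P i s) *ᵥ z) f := by
      intro s
      show (eval s) (aeval _ f) = _
      have h1 : ∀ q : MvPolynomial μ E, eval s q = aeval s q := by
        intro q; rw [← coe_aeval_eq_eval]; rfl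
      rw [h1]
      have h2 := (AlgHom.restrictScalars K (aeval (R := E) s)).comp_apply
        (aeval (fun j => ∑ k, map (algebraMap K E) (P i j k) * C (z k))) f
      rw [comp_aeval] at h2
      refine h2.symm.trans ?_
      congr 2
      funext j
      simp [Matrix.mulVec, dotProduct, mat]
      rfl
    have h0 : p = 0 := by
      refine dens (K := K) p fun s => ?_
      rw [hp]
      have h2 := hz _ (van_sub hf (Submonoid.subset_closure ⟨i, s, rfl⟩ : mat K P i s ∈ gam K P))
      rwa [aeval_sub, mat_map] at h2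
    rw [← hp, h0, map_zero]
  have hgam : ∀ w ∈ gam E P, ∀ z ∈ V, w *ᵥ z ∈ V := by
    intro w hw
    refine Submonoid.closure_induction (motive := fun w _ => ∀ z ∈ V, w *ᵥ z ∈ V) ?_ ?_ ?_ hw
    · rintro _ ⟨i, s, rfl⟩ z hz
      exact hfam z hz i s
    · intro z hz
      rwa [Matrix.one_mulVec]
    · intro a b _ _ ha hb z hz
      rw [← Matrix.mulVec_mulVec]
      exact ha _ (hb z hz)
  have hy : (fun i => algebraMap K E (y i)) ∈ V := by
    intro f hf
    have h1 := hf 1 (one_mem _) 1
    rw [Matrix.one_mulVec, one_smul] at h1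
    have h2 := aeval_algebraMap_apply E y f
    rw [← coe_aeval_eq_eval] at h1
    have h3 : (fun i => algebraMap K E (y i)) = algebraMap K E ∘ y := rfl
    rw [h3, h2]
    have h4 : aeval y f = 0 := h1
    rw [h4, map_zero]
  intro w hw c
  have := hsc _ (hgam w hw _ hy) c f hf
  rwa [eval_map, ← aeval_def]

omit [Infinite K] in
theorem mem_van_of_map (P : ι → Matrix N N (MvPolynomial μ K)) (y : N → K)
    {f : MvPolynomial N K}
    (hf : map (algebraMap K E) f ∈ van (gam E P) (fun i => algebraMap K E (y i))) :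
    f ∈ van (gam K P) y := by
  intro w hw c
  have hw' : w.map (algebraMap K E) ∈ gam E P := by
    refine Submonoid.closure_induction (motive := fun w _ => w.map (algebraMap K E) ∈ gam E P)
      ?_ ?_ ?_ hw
    · rintro _ ⟨i, s, rfl⟩
      exact Submonoid.subset_closure ⟨i, fun j => algebraMap K E (s j), mat_map P i s⟩
    · rw [Matrix.map_one _ (map_zero _) (map_one _)]
      exact one_mem _
    · intro a b _ _ ha hb
      rw [Matrix.map_mul]
      exact mul_mem ha hb
  have h1 := hf _ hw' (algebraMap K E c)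
  rw [eval_map] at h1
  have h2 : (algebraMap K E c) • ((w.map (algebraMap K E)) *ᵥ fun i => algebraMap K E (y i)) =
      fun i => algebraMap K E ((c • (w *ᵥ y)) i) := by
    funext i
    simp [Matrix.mulVec, dotProduct]
  rw [h2] at h1
  have h3 : eval₂ (algebraMap K E) (fun i => algebraMap K E ((c • (w *ᵥ y)) i)) f =
      algebraMap K E (eval (c • (w *ᵥ y)) f) := (eval₂_comp (algebraMap K E) _ f).symm
  rw [h3] at h1
  exact (map_eq_zero _).1 h1

/-- The ideal of the orbit of a `K`-point depends only on its orbit over an extension. -/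
theorem van_eq_of_ext (P : ι → Matrix N N (MvPolynomial μ K)) {y y' : N → K}
    (h : van (gam E P) (fun i => algebraMap K E (y i)) =
      van (gam E P) (fun i => algebraMap K E (y' i))) : van (gam K P) y = van (gam K P) y' := by
  ext f
  constructor
  · intro hf
    have := map_mem_van (E := E) P y hf
    rw [h] at this
    exact mem_van_of_map P y' this
  · intro hf
    have := map_mem_van (E := E) P y' hf
    rw [← h] at this
    exact mem_van_of_map P y this

end ext

section loc

variable {K : Type u} [Field K] {L : Type v} [NontriviallyNormedField L] {N : Type} [Fintype N]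

/-- The ideal of the local Zariski closure at `x` of the cone `A` of rational points. -/
def loc (σ : K →+* L) (A : Set (N → K)) (x : N → L) : Set (MvPolynomial N K) :=
  {f | ∃ U ∈ 𝓝 x, ∀ y : N → K, y ≠ 0 → y ∈ A →
    (∃ c : L, c ≠ 0 ∧ (fun i => c * σ (y i)) ∈ U) → ∀ t : K, eval (t • y) f = 0}

theorem inf_ball (σ : K →+* L) (hσ : DenseRange σ) {V : Set L} (hV : V ∈ 𝓝 (0 : L)) :
    {a : K | σ a ∈ V}.Infinite := by
  intro hfin
  obtain ⟨W, hWV, hW, h0⟩ := mem_nhds_iff.1 hV
  have h1 : W ⊆ closure (W ∩ Set.range σ) := hσ.open_subset_closure_inter hW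
  have h2 : (W ∩ Set.range σ).Finite := by
    refine (hfin.image σ).subset ?_
    rintro _ ⟨h, a, rfl⟩
    exact ⟨a, hWV h, rfl⟩
  rw [h2.isClosed.closure_eq] at h1
  exact infinite_of_mem_nhds 0 (hW.mem_nhds h0) (h2.subset h1)

/-- a polynomial which vanishes at the rational points in a neighbourhood of the origin is zero -/
theorem zero_of_nhds (σ : K →+* L) (hσ : DenseRange σ) {μ : Type} [Fintype μ]
    {V : Set (μ → L)} (hV : V ∈ 𝓝 (0 : μ → L)) (p : MvPolynomial μ K)
    (h : ∀ s : μ → K, (fun i => σ (s i)) ∈ V → eval s p = 0) : p = 0 := by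
  rw [nhds_pi, Filter.mem_pi'] at hV
  obtain ⟨I, t, ht, hsub⟩ := hV
  refine funext_set (fun i => {a : K | σ a ∈ t i}) (fun i => inf_ball σ hσ (ht i)) ?_
  intro x hx
  rw [map_zero]
  exact h x (hsub fun i _ => hx i (Set.mem_univ i))

theorem loc_uniform (σ : K →+* L) (A : Set (N → K)) (x : N → L) :
    ∃ U ∈ 𝓝 x, ∀ f ∈ loc σ A x, ∀ y : N → K, y ≠ 0 → y ∈ A →
      (∃ c : L, c ≠ 0 ∧ (fun i => c * σ (y i)) ∈ U) → ∀ t : K, eval (t • y) f = 0 := by
  classical
  let I : Ideal (MvPolynomial N K) :=
    { carrier := loc σ A x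
      add_mem' := by
        rintro f g ⟨U, hU, hf⟩ ⟨V, hV, hg⟩
        refine ⟨U ∩ V, Filter.inter_mem hU hV, ?_⟩
        rintro y hy hA ⟨c, hc, h1, h2⟩ t
        rw [map_add, hf y hy hA ⟨c, hc, h1⟩ t, hg y hy hA ⟨c, hc, h2⟩ t, add_zero]
      zero_mem' := ⟨Set.univ, Filter.univ_mem, fun y _ _ _ t => by simp⟩
      smul_mem' := by
        rintro a f ⟨U, hU, hf⟩
        refine ⟨U, hU, fun y hy hA hc t => ?_⟩
        rw [smul_eq_mul, map_mul, hf y hy hA hc t, mul_zero] }
  obtain ⟨G, hG⟩ := (isNoetherianRing_iff_ideal_fg _).1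
    (inferInstance : IsNoetherianRing (MvPolynomial N K)) I
  have hGI : ∀ g ∈ G, g ∈ loc σ A x := fun g hg => by
    have : g ∈ I := by rw [← hG]; exact Ideal.subset_span hg
    exact this
  choose! U hU hUg using hGI
  refine ⟨⋂ g ∈ G, U g, (Filter.biInter_finset_mem G).2 hU, ?_⟩
  rintro f hf y hy hA ⟨c, hc, hcU⟩ t
  have hfI : f ∈ Ideal.span (G : Set (MvPolynomial N K)) := by rw [hG]; exact hf
  refine Submodule.span_induction (p := fun f _ => eval (t • y) f = 0) ?_ ?_ ?_ ?_ hfI
  · intro g hg
    exact hUg g hg y hy hA ⟨c, hc, Set.mem_iInter₂.1 hcU g hg⟩ t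
  · simp
  · intro a b _ _ ha hb
    rw [map_add, ha, hb, add_zero]
  · intro a b _ hb
    rw [smul_eq_mul, map_mul, hb, mul_zero]

variable [DecidableEq N] {ι μ : Type} [Fintype μ]

/-- The local closures are invariant. -/
theorem loc_stable (σ : K →+* L) (hσ : DenseRange σ)
    (P : ι → Matrix N N (MvPolynomial μ K)) (hP0 : ∀ i, mat K P i 0 = 1) {A : Set (N → K)}
    (hA : ∀ y ∈ A, ∀ i s, mat K P i s *ᵥ y ∈ A) (x : N → L) (i : ι) (s : μ → K)
    {f : MvPolynomial N K} (hf : f ∈ loc σ A x) : sub (mat K P i s) f ∈ loc σ A x := by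
  obtain ⟨U, hU, hf⟩ := hf
  let Φ : (μ → L) × (N → L) → (N → L) := fun p j => ∑ k, eval₂ σ p.1 (P i j k) * p.2 k
  have hcont : Continuous Φ := by
    refine continuous_pi fun j => continuous_finsetSum _ fun k _ => ?_
    refine Continuous.mul ?_ ((continuous_apply k).comp continuous_snd)
    have h : (fun p : (μ → L) × (N → L) => eval₂ σ p.1 (P i j k)) =
        fun p => eval p.1 (MvPolynomial.map σ (P i j k)) := by
      funext p
      rw [eval_map]
    rw [h]
    exact (MvPolynomial.continuous_eval _).comp continuous_fst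
  have hσe : ∀ (s : μ → K) (q : MvPolynomial μ K),
      eval₂ σ (fun i => σ (s i)) q = σ (eval s q) := fun s q =>
    (MvPolynomial.eval₂_comp σ s q).symm
  have hΦ : ∀ (s : μ → K) (y : N → K) (c : L), Φ (fun a => σ (s a), fun a => c * σ (y a)) =
      fun a => c * σ ((mat K P i s *ᵥ y) a) := by
    intro s y c
    funext j
    simp only [Φ, hσe, Matrix.mulVec, dotProduct, mat, Matrix.map_apply, map_sum, map_mul,
      Finset.mul_sum]
    refine Finset.sum_congr rfl fun k _ => ?_
    have h1 : aeval s (P i j k) = eval s (P i j k) := by rw [← coe_aeval_eq_eval]; rfl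
    rw [h1]
    ring
  have hΦ0 : Φ (0, x) = x := by
    funext j
    have h1 : ∀ k, eval₂ σ (0 : μ → L) (P i j k) = σ ((1 : Matrix N N K) j k) := by
      intro k
      have h2 := hσe 0 (P i j k)
      have h3 : (fun i : μ => σ ((0 : μ → K) i)) = 0 := by
        funext i; simp
      rw [h3] at h2
      rw [h2, ← hP0 i]
      congr 1
    simp only [Φ, h1]
    rw [Finset.sum_eq_single j]
    · simp
    · intro k _ hk
      simp [Matrix.one_apply_ne (Ne.symm hk)]
    · simp
  have hpre : Φ ⁻¹' U ∈ 𝓝 ((0 : μ → L), x) := hcont.continuousAt.preimage_mem_nhds (by rwa [hΦ0])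
  rw [nhds_prod_eq, Filter.mem_prod_iff] at hpre
  obtain ⟨V, hV, W, hW, hVW⟩ := hpre
  refine ⟨W, hW, ?_⟩
  rintro y hy hyA ⟨c, hc, hcW⟩ t
  let p : MvPolynomial μ K := aeval (fun j => ∑ k, P i j k * C (t * y k)) f
  have hp : ∀ s : μ → K, eval s p = eval (t • (mat K P i s *ᵥ y)) f := by
    intro s
    show eval s (aeval _ f) = _
    have h1 : ∀ q : MvPolynomial μ K, eval s q = aeval s q := by
      intro q; rw [← coe_aeval_eq_eval]; rfl
    rw [h1]
    have h2 := (aeval (R := K) s).comp_apply (aeval (fun j => ∑ k, P i j k * C (t * y k))) f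
    rw [comp_aeval] at h2
    refine h2.symm.trans ?_
    rw [← coe_aeval_eq_eval]
    show aeval _ f = aeval _ f
    congr 2
    funext j
    simp only [map_sum, map_mul, Matrix.mulVec, dotProduct, mat, Matrix.map_apply, Pi.smul_apply,
      smul_eq_mul, Finset.mul_sum, algHom_C]
    refine Finset.sum_congr rfl fun k _ => ?_
    simp
    ring
  have h0 : p = 0 := by
    refine zero_of_nhds σ hσ hV p fun s hs => ?_
    rw [hp]
    have hmemU : (fun a => c * σ ((mat K P i s *ᵥ y) a)) ∈ U := by
      rw [← hΦ s y c]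
      exact hVW ⟨hs, hcW⟩
    by_cases hz : mat K P i s *ᵥ y = 0
    · rw [hz, smul_zero]
      have h00 : (0 : μ → L) ∈ V := mem_of_mem_nhds hV
      have hyU : (fun a => c * σ (y a)) ∈ U := by
        have h3 := hVW (Set.mk_mem_prod h00 hcW)
        have h4 := hΦ 0 y c
        have h5 : (fun a : μ => σ ((0 : μ → K) a)) = 0 := by funext a; simp
        rw [h5, hP0, Matrix.one_mulVec] at h4
        rw [← h4]
        exact h3
      have := hf y hy hyA ⟨c, hc, hyU⟩ 0
      rwa [zero_smul] at this
    · exact hf _ hz (hA y hyA i s) ⟨c, hc, hmemU⟩ t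
  rw [eval_sub, Matrix.mulVec_smul, ← hp, h0, map_zero]

theorem loc_stable_gam (σ : K →+* L) (hσ : DenseRange σ)
    (P : ι → Matrix N N (MvPolynomial μ K)) (hP0 : ∀ i, mat K P i 0 = 1) {A : Set (N → K)}
    (hA : ∀ y ∈ A, ∀ i s, mat K P i s *ᵥ y ∈ A) (x : N → L) {w : Matrix N N K}
    (hw : w ∈ gam K P) : ∀ f ∈ loc σ A x, sub w f ∈ loc σ A x := by
  refine Submonoid.closure_induction
    (motive := fun w _ => ∀ f ∈ loc σ A x, sub w f ∈ loc σ A x) ?_ ?_ ?_ hw
  · rintro _ ⟨i, s, rfl⟩ f hf
    exact loc_stable σ hσ P hP0 hA x i s hf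
  · intro f hf
    rwa [sub_one]
  · intro a b _ _ ha hb f hf
    rw [← sub_sub]
    exact hb _ (ha f hf)

/-- If the orbits have only finitely many ideals then so have the local closures. -/
theorem loc_finite (σ : K →+* L) (hσ : DenseRange σ)
    (P : ι → Matrix N N (MvPolynomial μ K)) (hP0 : ∀ i, mat K P i 0 = 1) {A : Set (N → K)}
    (hA : ∀ y ∈ A, ∀ i s, mat K P i s *ᵥ y ∈ A)
    (hfin : {I : Ideal (MvPolynomial N K) | ∃ y ∈ A, y ≠ 0 ∧ I = van (gam K P) y}.Finite) :
    {J : Set (MvPolynomial N K) | ∃ x : N → L, J = loc σ A x}.Finite := by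
  classical
  set 𝓘 := {I : Ideal (MvPolynomial N K) | ∃ y ∈ A, y ≠ 0 ∧ I = van (gam K P) y}
  have key : ∀ x : N → L, ∃ B ⊆ 𝓘, loc σ A x = {f | ∀ I ∈ B, f ∈ I} := by
    intro x
    let B : Set (Ideal (MvPolynomial N K)) := {I | ∀ U ∈ 𝓝 x, ∃ y ∈ A, y ≠ 0 ∧
      (∃ c : L, c ≠ 0 ∧ (fun i => c * σ (y i)) ∈ U) ∧ I = van (gam K P) y}
    refine ⟨B, ?_, ?_⟩
    · intro I hI
      obtain ⟨y, hy, hy0, -, rfl⟩ := hI Set.univ Filter.univ_mem
      exact ⟨y, hy, hy0, rfl⟩
    · ext f
      constructor
      · intro hf I hI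
        obtain ⟨U, hU, hUf⟩ := loc_uniform σ A x
        obtain ⟨y, hy, hy0, hc, rfl⟩ := hI U hU
        intro w hw t
        have h1 := hUf _ (loc_stable_gam σ hσ P hP0 hA x hw f hf) y hy0 hy hc t
        rwa [eval_sub, Matrix.mulVec_smul] at h1
      · intro hf
        have hex : ∀ I ∈ 𝓘 \ B, ∃ U ∈ 𝓝 x, ∀ y ∈ A, y ≠ 0 →
            (∃ c : L, c ≠ 0 ∧ (fun i => c * σ (y i)) ∈ U) → I ≠ van (gam K P) y := by
          rintro I ⟨-, hI⟩
          by_contra hcon
          push Not at hcon
          exact hI fun U hU => by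
            obtain ⟨y, hy, hy0, hc, h⟩ := hcon U hU
            exact ⟨y, hy, hy0, hc, h⟩
        choose! U hU hUI using hex
        have hfin' : (𝓘 \ B).Finite := hfin.subset Set.sdiff_subset
        refine ⟨⋂ I ∈ 𝓘 \ B, U I, (Filter.biInter_mem hfin').2 hU, ?_⟩
        rintro y hy hyA ⟨c, hc, hcU⟩ t
        have hmem : van (gam K P) y ∈ 𝓘 := ⟨y, hyA, hy, rfl⟩
        have hB : van (gam K P) y ∈ B := by
          by_contra hB
          exact hUI _ ⟨hmem, hB⟩ y hyA hy
            ⟨c, hc, Set.mem_iInter₂.1 hcU _ ⟨hmem, hB⟩⟩ rfl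
        have h1 := hf _ hB 1 (one_mem _) t
        rwa [Matrix.one_mulVec] at h1
  refine ((hfin.finite_subsets).image fun B => {f | ∀ I ∈ B, f ∈ I}).subset ?_
  rintro _ ⟨x, rfl⟩
  obtain ⟨B, hB, h⟩ := key x
  exact ⟨B, hB, h.symm⟩

end loc

end Pool.Agent.Q256.Orb
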