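import Pool.Agent.Q256.Orb

/-!
# Local Zariski closures of products and joins of cones of rational points
-/

set_option autoImplicit false

namespace Pool.Agent.Q256.Prod

open MvPolynomial Topology Matrix Pool.Agent.Q256.Orb

universe u v

section van

variable {K : Type u} [Field K]

/-- the polynomials vanishing on `C` -/
def Van {κ : Type} (C : Set (κ → K)) : Set (MvPolynomial κ K) := {f | ∀ z ∈ C, eval z f = 0}

/-- the zero set -/
def Zer {κ : Type} (I : Set (MvPolynomial κ K)) : Set (κ → K) := {z | ∀ f ∈ I, eval z f = 0}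

theorem Van_Zer_Van {κ : Type} (C : Set (κ → K)) : Van (Zer (Van C)) = Van C := by
  ext f
  constructor
  · intro hf z hz
    exact hf z fun g hg => hg z hz
  · intro hf z hz
    exact hz f hf

theorem eval_bind {κ κ' : Type} (u : κ' → K) (h : κ → MvPolynomial κ' K) (f : MvPolynomial κ K) :
    eval u (bind₁ h f) = eval (fun p => eval u (h p)) f := by
  have h0 := eval₂Hom_bind₁ (RingHom.id K) u h f
  exact h0

theorem eval_smul_hom {κ : Type} [Fintype κ] {g : MvPolynomial κ K} {d : ℕ}
    (h : g.IsHomogeneous d) (t : K) (y : κ → K) : eval (t • y) g = t ^ d * eval y g := by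
  rw [eval_eq', eval_eq', Finset.mul_sum]
  refine Finset.sum_congr rfl fun m hm => ?_
  have h1 : ∑ i, m i = d := by
    have h2 := h (mem_support_iff.1 hm)
    rw [Finsupp.weight_apply, Finsupp.sum_fintype _ _ (by simp)] at h2
    simpa using h2
  simp only [Pi.smul_apply, smul_eq_mul, mul_pow, Finset.prod_mul_distrib,
    Finset.prod_pow_eq_pow_sum, h1]
  ring

variable {ι : Type} [Fintype ι] [DecidableEq ι] {N : ι → Type}

/-- the polynomials which vanish on a product -/
def VanP (C : ∀ i, Set (N i → K)) : Set (MvPolynomial (Σ i, N i) K) :=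
  {f | ∀ z : ∀ i, N i → K, (∀ i, z i ∈ C i) → eval (fun p => z p.1 p.2) f = 0}

theorem VanP_le {C C' : ∀ i, Set (N i → K)} (h : ∀ i, Van (C i) ⊆ Van (C' i)) :
    VanP C ⊆ VanP C' := by
  intro f hf
  have key : ∀ s : Finset ι, ∀ z : ∀ i, N i → K, (∀ i ∈ s, z i ∈ C' i) → (∀ i ∉ s, z i ∈ C i) →
      eval (fun p : Σ i, N i => z p.1 p.2) f = 0 := by
    intro s
    induction s using Finset.induction_on with
    | empty => intro z _ hz; exact hf z fun i => hz i (Finset.notMem_empty i)
    | insert a s ha ih =>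
      intro z hz1 hz2
      let g : MvPolynomial (N a) K := bind₁ (fun p : Σ i, N i =>
        (Function.update (fun i (j : N i) =>
          (MvPolynomial.C (z i j) : MvPolynomial (N a) K)) a X) p.1 p.2) f
      have hg : ∀ u : N a → K, eval u g =
          eval (fun p : Σ i, N i => (Function.update z a u) p.1 p.2) f := by
        intro u
        show eval u (bind₁ _ f) = _
        rw [eval_bind]
        congr 2
        funext p
        obtain ⟨i, j⟩ := p
        by_cases hi : i = a
        · subst hi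
          simp
        · simp [Function.update_of_ne hi]
      have hgC : g ∈ Van (C a) := by
        intro u hu
        rw [hg]
        refine ih _ (fun i hi => ?_) (fun i hi => ?_)
        · have hia : i ≠ a := fun h => ha (h ▸ hi)
          rw [Function.update_of_ne hia]
          exact hz1 i (Finset.mem_insert_of_mem hi)
        · by_cases hia : i = a
          · subst hia
            rw [Function.update_self]
            exact hu
          · rw [Function.update_of_ne hia]
            exact hz2 i (by simp [hia, hi])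
      have h1 := h a hgC (z a) (hz1 a (Finset.mem_insert_self a s))
      rw [hg, Function.update_eq_self] at h1
      exact h1
  intro z hz
  exact key Finset.univ z (fun i _ => hz i) (fun i hi => absurd (Finset.mem_univ i) hi)

theorem VanP_congr {C C' : ∀ i, Set (N i → K)} (h : ∀ i, Van (C i) = Van (C' i)) :
    VanP C = VanP C' :=
  Set.Subset.antisymm (VanP_le fun i => (h i).le) (VanP_le fun i => (h i).ge)

end van

section loc

variable {K : Type u} [Field K] {L : Type v} [NontriviallyNormedField L]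

/-- the rational points of the cone `A` over the points near `x` -/
def nr {N : Type} (σ : K →+* L) (A : Set (N → K)) (U : Set (N → L)) : Set (N → K) :=
  {z | ∃ y ∈ A, y ≠ 0 ∧ (∃ c : L, c ≠ 0 ∧ (fun j => c * σ (y j)) ∈ U) ∧ ∃ t : K, z = t • y}

theorem nr_mono {N : Type} (σ : K →+* L) (A : Set (N → K)) {U V : Set (N → L)} (h : U ⊆ V) :
    nr σ A U ⊆ nr σ A V := by
  rintro z ⟨y, hy, hy0, ⟨c, hc, hcU⟩, t, rfl⟩
  exact ⟨y, hy, hy0, ⟨c, hc, h hcU⟩, t, rfl⟩

theorem loc_eq_Van {N : Type} [Fintype N] (σ : K →+* L) (A : Set (N → K)) (x : N → L) :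
    ∃ U ∈ 𝓝 x, ∀ V ∈ 𝓝 x, V ⊆ U → loc σ A x = Van (nr σ A V) := by
  obtain ⟨U, hU, h⟩ := loc_uniform σ A x
  refine ⟨U, hU, fun V hV hVU => ?_⟩
  ext f
  constructor
  · rintro hf z ⟨y, hy, hy0, ⟨c, hc, hcU⟩, t, rfl⟩
    exact h f hf y hy0 hy ⟨c, hc, hVU hcU⟩ t
  · intro hf
    exact ⟨V, hV, fun y hy0 hy hc t => hf _ ⟨y, hy, hy0, hc, t, rfl⟩⟩

theorem inf_nhds (σ : K →+* L) (hσ : DenseRange σ) {c : L} {V : Set L} (hV : V ∈ 𝓝 c) :
    {a : K | σ a ∈ V}.Infinite := by
  intro hfin
  obtain ⟨W, hWV, hW, h0⟩ := mem_nhds_iff.1 hV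
  have h1 : W ⊆ closure (W ∩ Set.range σ) := hσ.open_subset_closure_inter hW
  have h2 : (W ∩ Set.range σ).Finite := by
    refine (hfin.image σ).subset ?_
    rintro _ ⟨h, a, rfl⟩
    exact ⟨a, hWV h, rfl⟩
  rw [h2.isClosed.closure_eq] at h1
  exact infinite_of_mem_nhds c (hW.mem_nhds h0) (h2.subset h1)

variable {ι : Type} [Fintype ι] [DecidableEq ι] {N : ι → Type} [∀ i, Fintype (N i)]

/-- The ideal of the local Zariski closure of a product at `x`. -/
def ploc (σ : K →+* L) (A : ∀ i, Set (N i → K)) (x : ∀ i, N i → L) :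
    Set (MvPolynomial (Σ i, N i) K) :=
  {f | ∃ U ∈ 𝓝 x, ∀ y : ∀ i, N i → K, (∀ i, y i ≠ 0) → (∀ i, y i ∈ A i) →
    (∃ c : ι → L, (∀ i, c i ≠ 0) ∧ (fun i j => c i * σ (y i j)) ∈ U) →
    ∀ t : ι → K, eval (fun p => t p.1 * y p.1 p.2) f = 0}

theorem ploc_eq (σ : K →+* L) (A : ∀ i, Set (N i → K)) (x : ∀ i, N i → L) :
    ploc σ A x = VanP fun i => Zer (loc σ (A i) (x i)) := by
  choose U hU hUV using fun i => loc_eq_Van σ (A i) (x i)
  have h1 : (VanP fun i => Zer (loc σ (A i) (x i))) = VanP fun i => nr σ (A i) (U i) := by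
    refine VanP_congr fun i => ?_
    rw [hUV i (U i) (hU i) subset_rfl, Van_Zer_Van]
  rw [h1]
  refine Set.Subset.antisymm ?_ ?_
  · rintro f ⟨W, hW, hf⟩
    rw [nhds_pi, Filter.mem_pi'] at hW
    obtain ⟨I, V, hV, hsub⟩ := hW
    have h2 : (VanP fun i => nr σ (A i) (U i)) = VanP fun i => nr σ (A i) (U i ∩ V i) := by
      refine VanP_congr fun i => ?_
      rw [← hUV i (U i) (hU i) subset_rfl,
        ← hUV i (U i ∩ V i) (Filter.inter_mem (hU i) (hV i)) Set.inter_subset_left]
    rw [h2]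
    intro z hz
    choose y hy hy0 hc t ht using hz
    choose c hc hcU using hc
    have h3 := hf y hy0 hy ⟨c, hc, hsub fun i _ => (hcU i).2⟩ t
    convert h3 using 2
    congr 1
    funext p
    rw [ht p.1]
    rfl
  · intro f hf
    refine ⟨Set.univ.pi U, set_pi_mem_nhds Set.finite_univ fun i _ => hU i, ?_⟩
    rintro y hy0 hy ⟨c, hc, hcU⟩ t
    exact hf (fun i => t i • y i) fun i =>
      ⟨y i, hy i, hy0 i, ⟨c i, hc i, hcU i (Set.mem_univ i)⟩, t i, rfl⟩

/-- Local closures of products take finitely many values. -/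
theorem ploc_finite (σ : K →+* L) (A : ∀ i, Set (N i → K)) (Y : Set (∀ i, N i → L))
    (h : ∀ i, {J | ∃ x ∈ Y, J = loc σ (A i) (x i)}.Finite) :
    {J | ∃ x ∈ Y, J = ploc σ A x}.Finite := by
  refine ((Set.Finite.pi' h).image fun ℓ => VanP fun i => Zer (ℓ i)).subset ?_
  rintro _ ⟨x, hx, rfl⟩
  exact ⟨fun i => loc σ (A i) (x i), fun i => ⟨x, hx, rfl⟩, (ploc_eq σ A x).symm⟩

/-- The cone of the rational points of the join. -/
def jn (A : ∀ i, Set (N i → K)) : Set ((Σ i, N i) → K) :=
  {y | ∀ i, (fun j => y ⟨i, j⟩) ∈ A i}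

open Classical in
/-- The ideals of the factors for the local closure of the join. -/
noncomputable def jl (σ : K →+* L) (A : ∀ i, Set (N i → K)) (x : (Σ i, N i) → L) (i : ι) :
    Set (MvPolynomial (N i) K) :=
  if (fun j => x ⟨i, j⟩) = 0 then Van (A i) else loc σ (A i) fun j => x ⟨i, j⟩

theorem jloc_eq (σ : K →+* L) (hσ : DenseRange σ) (A : ∀ i, Set (N i → K))
    (hA : ∀ i, ∀ y ∈ A i, ∀ t : K, t • y ∈ A i) {x : (Σ i, N i) → L} (hx : x ≠ 0) :
    loc σ (jn A) x = VanP fun i => Zer (jl σ A x i) := by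
  classical
  have hU' : ∀ i, ∃ U : Set (N i → L), U ∈ 𝓝 (fun j => x ⟨i, j⟩) ∧
      ((fun j => x ⟨i, j⟩) ≠ 0 → (0 : N i → L) ∉ U) ∧
      ∀ V ∈ 𝓝 (fun j => x ⟨i, j⟩), V ⊆ U →
        loc σ (A i) (fun j => x ⟨i, j⟩) = Van (nr σ (A i) V) := by
    intro i
    obtain ⟨U, hU, h⟩ := loc_eq_Van σ (A i) fun j => x ⟨i, j⟩
    by_cases hi : (fun j => x ⟨i, j⟩) = 0
    · exact ⟨U, hU, fun h' => absurd hi h', h⟩
    · refine ⟨U ∩ {0}ᶜ, Filter.inter_mem hU (isOpen_compl_singleton.mem_nhds hi),
        fun _ h0 => h0.2 rfl, fun V hV hVU => h V hV (hVU.trans Set.inter_subset_left)⟩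
  choose U hU hU0 hUV using hU'
  -- the sets of rational points in the factors
  let D : (∀ i, Set (N i → L)) → ∀ i, Set (N i → K) := fun V i =>
    if (fun j => x ⟨i, j⟩) = 0 then A i else nr σ (A i) (V i)
  have hD : ∀ V : ∀ i, Set (N i → L), (∀ i, V i ∈ 𝓝 (fun j => x ⟨i, j⟩)) → (∀ i, V i ⊆ U i) →
      (VanP fun i => Zer (jl σ A x i)) = VanP (D V) := by
    intro V hV hVU
    refine VanP_congr fun i => ?_
    by_cases hi : (fun j => x ⟨i, j⟩) = 0
    · simp only [jl, D, if_pos hi]
      exact Van_Zer_Van _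
    · simp only [jl, D, if_neg hi]
      rw [hUV i (V i) (hV i) (hVU i)]
      exact Van_Zer_Van _
  refine Set.Subset.antisymm ?_ ?_
  · rintro f ⟨W, hW, hf⟩
    have hcont : Continuous fun (z : ∀ i, N i → L) (p : Σ i, N i) => z p.1 p.2 :=
      continuous_pi fun p => (continuous_apply p.2).comp (continuous_apply p.1)
    have hW' : (fun (z : ∀ i, N i → L) (p : Σ i, N i) => z p.1 p.2) ⁻¹' W ∈
        𝓝 (fun i j => x ⟨i, j⟩) := hcont.continuousAt.preimage_mem_nhds hW
    rw [nhds_pi, Filter.mem_pi'] at hW'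
    obtain ⟨I, V, hV, hsub⟩ := hW'
    rw [hD (fun i => interior (U i ∩ V i))
      (fun i => interior_mem_nhds.2 (Filter.inter_mem (hU i) (hV i)))
      (fun i => interior_subset.trans Set.inter_subset_left)]
    intro z hz
    -- directions and parameters
    have hb : ∀ i, ∃ (b : N i → K) (t : K), b ∈ A i ∧ z i = t • b ∧
        {a : K | (fun j => σ a * σ (b j)) ∈ U i ∩ V i}.Infinite := by
      intro i
      have hcont1 : ∀ b : N i → K, Continuous fun (a : L) (j : N i) => a * σ (b j) := fun b =>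
        continuous_pi fun j => continuous_id.mul continuous_const
      by_cases hi : (fun j => x ⟨i, j⟩) = 0
      · have hzi : z i ∈ A i := by
          have := hz i
          simp only [D, if_pos hi] at this
          exact this
        refine ⟨z i, 1, hzi, (one_smul _ _).symm, ?_⟩
        refine inf_nhds σ hσ (c := 0)
          (V := {a : L | (fun j => a * σ (z i j)) ∈ U i ∩ V i}) ?_
        have h0 : (fun j => (0 : L) * σ (z i j)) = fun j => x ⟨i, j⟩ := by
          rw [hi]
          funext j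
          simp
        exact (hcont1 (z i)).continuousAt.preimage_mem_nhds
          (by rw [h0]; exact Filter.inter_mem (hU i) (hV i))
      · have hzi := hz i
        simp only [D, if_neg hi] at hzi
        obtain ⟨b, hb, hb0, ⟨c, hc, hcU⟩, t, ht⟩ := hzi
        refine ⟨b, t, hb, ht, ?_⟩
        refine inf_nhds σ hσ (c := c) (V := {a : L | (fun j => a * σ (b j)) ∈ U i ∩ V i}) ?_
        exact (hcont1 b).continuousAt.preimage_mem_nhds (mem_interior_iff_mem_nhds.1 hcU)
    choose b t hbA hzt hinf using hb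
    let g : MvPolynomial ι K := bind₁ (fun p : Σ i, N i => X p.1 * C (b p.1 p.2)) f
    have hg : ∀ a : ι → K, eval a g = eval (fun p : Σ i, N i => a p.1 * b p.1 p.2) f := by
      intro a
      show eval a (bind₁ _ f) = _
      rw [eval_bind]
      simp
    have hg0 : g = 0 := by
      refine funext_set (fun i => {a : K | (fun j => σ a * σ (b i j)) ∈ U i ∩ V i}) hinf ?_
      intro a ha
      rw [map_zero, hg]
      have hy : (fun p : Σ i, N i => a p.1 * b p.1 p.2) ∈ jn A := by
        intro i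
        exact hA i (b i) (hbA i) (a i)
      have hmem : ∀ i, (fun j => σ (a i) * σ (b i j)) ∈ U i ∩ V i := fun i =>
        ha i (Set.mem_univ i)
      have hy0 : (fun p : Σ i, N i => a p.1 * b p.1 p.2) ≠ 0 := by
        intro h0
        obtain ⟨⟨i, j⟩, hij⟩ : ∃ p, x p ≠ 0 := Function.ne_iff.1 hx
        have hi : (fun j => x ⟨i, j⟩) ≠ 0 := fun h => hij (congrFun h j)
        refine hU0 i hi ?_
        have h1 : (fun j => σ (a i) * σ (b i j)) = 0 := by
          funext j
          have := congrFun h0 ⟨i, j⟩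
          simp only [Pi.zero_apply] at this
          rw [← map_mul, this, map_zero]
          rfl
        rw [← h1]
        exact (hmem i).1
      have h1 := hf _ hy0 hy ⟨1, one_ne_zero, ?_⟩ 1
      · rwa [one_smul] at h1
      · have h2 : (fun i j => σ (a i) * σ (b i j)) ∈ (fun (z : ∀ i, N i → L) (p : Σ i, N i) =>
            z p.1 p.2) ⁻¹' W := hsub fun i _ => (hmem i).2
        have h3 : (fun p : Σ i, N i => (1 : L) * σ (a p.1 * b p.1 p.2)) =
            fun p : Σ i, N i => σ (a p.1) * σ (b p.1 p.2) := by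
          funext p
          rw [one_mul, map_mul]
        rw [h3]
        exact h2
    have h1 := hg t
    rw [hg0, map_zero] at h1
    have h2 : (fun p : Σ i, N i => z p.1 p.2) = fun p => t p.1 * b p.1 p.2 := by
      funext p
      rw [hzt p.1]
      rfl
    rw [h2]
    exact h1.symm
  · rw [hD U hU fun i => subset_rfl]
    intro f hf
    refine ⟨{w | ∀ i, (fun j => w ⟨i, j⟩) ∈ U i}, ?_, ?_⟩
    · have hcont : ∀ i, Continuous fun (w : (Σ i, N i) → L) (j : N i) => w ⟨i, j⟩ := fun i =>
        continuous_pi fun j => continuous_apply _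
      have h1 : {w : (Σ i, N i) → L | ∀ i, (fun j => w ⟨i, j⟩) ∈ U i} =
          ⋂ i, (fun (w : (Σ i, N i) → L) (j : N i) => w ⟨i, j⟩) ⁻¹' U i := by
        ext w
        simp
      rw [h1]
      exact Filter.iInter_mem.2 fun i => (hcont i).continuousAt.preimage_mem_nhds (hU i)
    · rintro y hy0 hy ⟨c, hc, hcU⟩ t
      refine hf (fun i j => (t • y) ⟨i, j⟩) fun i => ?_
      by_cases hi : (fun j => x ⟨i, j⟩) = 0
      · simp only [D, if_pos hi]
        exact hA i _ (hy i) t
      · simp only [D, if_neg hi]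
        refine ⟨fun j => y ⟨i, j⟩, hy i, ?_, ⟨c, hc, hcU i⟩, t, rfl⟩
        intro h0
        refine hU0 i hi ?_
        have h1 : (fun j => c * σ (y ⟨i, j⟩)) = 0 := by
          funext j
          rw [congrFun h0 j]
          simp
        rw [← h1]
        exact hcU i

/-- Local closures of joins take finitely many values. -/
theorem jloc_finite (σ : K →+* L) (hσ : DenseRange σ) (A : ∀ i, Set (N i → K))
    (hA : ∀ i, ∀ y ∈ A i, ∀ t : K, t • y ∈ A i) (Y : Set ((Σ i, N i) → L)) (hY : ∀ x ∈ Y, x ≠ 0)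
    (h : ∀ i, {J | ∃ x ∈ Y, (fun j => x ⟨i, j⟩) ≠ 0 ∧
      J = loc σ (A i) fun j => x ⟨i, j⟩}.Finite) :
    {J | ∃ x ∈ Y, J = loc σ (jn A) x}.Finite := by
  classical
  refine ((Set.Finite.pi' fun i => (h i).insert (Van (A i))).image
    fun ℓ => VanP fun i => Zer (ℓ i)).subset ?_
  rintro _ ⟨x, hx, rfl⟩
  refine ⟨jl σ A x, fun i => ?_, (jloc_eq σ hσ A hA (hY x hx)).symm⟩
  by_cases hi : (fun j => x ⟨i, j⟩) = 0
  · simp only [jl, if_pos hi]
    exact Set.mem_insert _ _
  · simp only [jl, if_neg hi]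
    exact Set.mem_insert_of_mem _ ⟨x, hx, hi, rfl⟩

end loc

end Pool.Agent.Q256.Prod
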