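import Pool.Agent.Q256.Ver

/-!
# Reduction of Mazur's question to quadrics and to quartic hypersurfaces
-/

set_option autoImplicit false

namespace Pool.Agent.Q256.Red

open MvPolynomial Topology Pool.Agent.Q256.Orb Pool.Agent.Q256.Prod Pool.Agent.Q256.Ver

universe u v

variable {K : Type u} [Field K] {L : Type v} [NontriviallyNormedField L]

/-- the ideals of the local closures of the closed set defined by `S` -/
def LIs {κ : Type} [Fintype κ] (σ : K →+* L) (S : Set (MvPolynomial κ K)) :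
    Set (Set (MvPolynomial κ K)) :=
  {J | ∃ x : κ → L, x ≠ 0 ∧ (∀ g ∈ S, eval₂ σ x g = 0) ∧
    J = loc σ {y | ∀ g ∈ S, eval y g = 0} x}

theorem loc_congr {κ : Type} [Fintype κ] (σ : K →+* L) {A B : Set (κ → K)}
    (h : ∀ y ≠ 0, (y ∈ A ↔ y ∈ B)) (x : κ → L) : loc σ A x = loc σ B x := by
  ext f
  constructor
  · rintro ⟨U, hU, hf⟩
    exact ⟨U, hU, fun y hy0 hy => hf y hy0 ((h y hy0).2 hy)⟩
  · rintro ⟨U, hU, hf⟩
    exact ⟨U, hU, fun y hy0 hy => hf y hy0 ((h y hy0).1 hy)⟩

/-- change of the names of the variables -/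
theorem LIs_rename {κ κ' : Type} [Fintype κ] [Fintype κ'] (σ : K →+* L) (e : κ ≃ κ')
    (S : Set (MvPolynomial κ K)) (h : (LIs σ (rename e '' S)).Finite) : (LIs σ S).Finite := by
  refine (h.image fun J => {f | rename e f ∈ J}).subset ?_
  rintro _ ⟨x, hx0, hx, rfl⟩
  have hA : ∀ y' : κ' → K, (∀ g ∈ rename e '' S, eval y' g = 0) ↔
      ∀ g ∈ S, eval (y' ∘ e) g = 0 := by
    intro y'
    simp only [Set.forall_mem_image, eval_rename]
  refine ⟨_, ⟨x ∘ e.symm, ?_, ?_, rfl⟩, ?_⟩
  · intro h0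
    refine hx0 ?_
    funext i
    have := congrFun h0 (e i)
    simpa using this
  · simp only [Set.forall_mem_image, eval₂_rename]
    intro g hg
    have h1 : (x ∘ e.symm) ∘ e = x := by
      funext i
      simp
    rw [h1]
    exact hx g hg
  · ext f
    constructor
    · rintro ⟨U, hU, hf⟩
      have hcont : Continuous fun (z : κ → L) => z ∘ e.symm :=
        continuous_pi fun i => continuous_apply _
      refine ⟨(fun (z : κ → L) => z ∘ e.symm) ⁻¹' U,
        hcont.continuousAt.preimage_mem_nhds hU, ?_⟩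
      rintro y hy0 hy ⟨c, hc, hcU⟩ t
      have h1 := hf (y ∘ e.symm) ?_ ?_ ⟨c, hc, hcU⟩ t
      · rw [eval_rename] at h1
        convert h1 using 2
        congr 1
        funext i
        simp
      · intro h0
        refine hy0 ?_
        funext i
        have := congrFun h0 (e i)
        simpa using this
      · show ∀ g ∈ rename e '' S, _
        rw [hA]
        have h1 : (y ∘ e.symm) ∘ e = y := by
          funext i
          simp
        rw [h1]
        exact hy
    · rintro ⟨U, hU, hf⟩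
      have hcont : Continuous fun (z : κ' → L) => z ∘ e :=
        continuous_pi fun i => continuous_apply _
      have hxe : (x ∘ e.symm) ∘ e = x := by
        funext i
        simp
      refine ⟨(fun (z : κ' → L) => z ∘ e) ⁻¹' U,
        hcont.continuousAt.preimage_mem_nhds (by rwa [hxe]), ?_⟩
      rintro y hy0 hy ⟨c, hc, hcU⟩ t
      rw [eval_rename]
      have h1 := hf (y ∘ e) ?_ ?_ ⟨c, hc, hcU⟩ t
      · exact h1
      · intro h0
        refine hy0 ?_
        funext i
        have := congrFun h0 (e.symm i)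
        simpa using this
      · exact (hA y).1 hy

section quad

variable {κ : Type} [Fintype κ] [DecidableEq κ] {d : ℕ}

/-- the quadratic forms defining the image under the Veronese map -/
noncomputable def quads (𝒞 : Finset ((Fin (d + 1) → κ) → K)) :
    Finset (MvPolynomial (Fin (d + 1) → κ) K) := by
  classical
  exact (Finset.univ : Finset ((Fin (d + 1) → κ) × (Fin (d + 1) → κ) × Fin (d + 1) ×
      Fin (d + 1))).image (fun p => X p.1 * X p.2.1 -
        X (Function.update p.1 p.2.2.1 (p.2.1 p.2.2.2)) *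
          X (Function.update p.2.1 p.2.2.2 (p.1 p.2.2.1))) ∪
    (𝒞 ×ˢ (Finset.univ : Finset (Fin (d + 1) → κ))).image (fun p =>
      (∑ a, C (p.1 a) * X a) * X p.2)

theorem mem_quads {𝒞 : Finset ((Fin (d + 1) → κ) → K)} {q : MvPolynomial (Fin (d + 1) → κ) K} :
    q ∈ quads 𝒞 ↔ (∃ a b k l, q = X a * X b - X (Function.update a k (b l)) *
      X (Function.update b l (a k))) ∨ ∃ c ∈ 𝒞, ∃ b, q = (∑ a, C (c a) * X a) * X b := by
  classical
  unfold quads
  rw [Finset.mem_union, Finset.mem_image, Finset.mem_image]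
  constructor
  · rintro (⟨⟨a, b, k, l⟩, -, rfl⟩ | ⟨⟨c, b⟩, hp, rfl⟩)
    · exact Or.inl ⟨a, b, k, l, rfl⟩
    · exact Or.inr ⟨c, (Finset.mem_product.1 hp).1, b, rfl⟩
  · rintro (⟨a, b, k, l, rfl⟩ | ⟨c, hc, b, rfl⟩)
    · exact Or.inl ⟨⟨a, b, k, l⟩, Finset.mem_univ _, rfl⟩
    · exact Or.inr ⟨⟨c, b⟩, Finset.mem_product.2 ⟨hc, Finset.mem_univ _⟩, rfl⟩

theorem quads_hom (𝒞 : Finset ((Fin (d + 1) → κ) → K)) :
    ∀ q ∈ quads 𝒞, q.IsHomogeneous 2 := by
  intro q hq
  rw [mem_quads] at hq
  obtain ⟨a, b, k, l, rfl⟩ | ⟨c, hc, b, rfl⟩ := hq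
  · exact ((isHomogeneous_X K _).mul (isHomogeneous_X K _)).sub
      ((isHomogeneous_X K _).mul (isHomogeneous_X K _))
  · refine IsHomogeneous.mul (m := 1) (n := 1) ?_ (isHomogeneous_X K _)
    refine IsHomogeneous.sum _ _ _ fun a _ => ?_
    have := (isHomogeneous_C (Fin (d + 1) → κ) (c a)).mul (isHomogeneous_X K a)
    rwa [zero_add] at this

theorem quads_zero (𝒞 : Finset ((Fin (d + 1) → κ) → K)) (z : (Fin (d + 1) → κ) → K) :
    (∀ q ∈ quads 𝒞, eval z q = 0) ↔ z ∈ cB (𝒞 : Set ((Fin (d + 1) → κ) → K)) := by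
  constructor
  · intro h
    refine ⟨fun a b k l => ?_, fun c hc b => ?_⟩
    · have := h _ (mem_quads.2 (Or.inl ⟨a, b, k, l, rfl⟩))
      simp only [map_sub, map_mul, eval_X] at this
      exact sub_eq_zero.1 this
    · have := h _ (mem_quads.2 (Or.inr ⟨c, hc, b, rfl⟩))
      simpa using this
  · rintro ⟨h1, h2⟩ q hq
    rw [mem_quads] at hq
    obtain ⟨a, b, k, l, rfl⟩ | ⟨c, hc, b, rfl⟩ := hq
    · simp only [map_sub, map_mul, eval_X]
      exact sub_eq_zero.2 (h1 a b k l)
    · simpa using h2 c hc b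

theorem quads_zero₂ (σ : K →+* L) (𝒞 : Finset ((Fin (d + 1) → κ) → K)) (x : κ → L)
    (hx : ∀ c ∈ 𝒞, ∑ a, σ (c a) * vr d x a = 0) : ∀ q ∈ quads 𝒞, eval₂ σ (vr d x) q = 0 := by
  intro q hq
  rw [mem_quads] at hq
  obtain ⟨a, b, k, l, rfl⟩ | ⟨c, hc, b, rfl⟩ := hq
  · rw [eval₂_sub, eval₂_mul, eval₂_mul, eval₂_X, eval₂_X, eval₂_X, eval₂_X, sub_eq_zero]
    exact Sw_vr x a b k l
  · rw [eval₂_mul, eval₂_sum]
    simp only [eval₂_mul, eval₂_C, eval₂_X]
    rw [hx c hc, zero_mul]

/-- every closed set is defined by forms of one degree -/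
theorem common_degree (σ : K →+* L) (S : Set (MvPolynomial κ K))
    (hS : ∀ f ∈ S, ∃ e : ℕ, f.IsHomogeneous e) :
    ∃ (d : ℕ) (𝒞 : Finset ((Fin (d + 1) → κ) → K)),
      (∀ y : κ → K, y ≠ 0 → ((∀ g ∈ S, eval y g = 0) ↔
        y ∈ cA (𝒞 : Set ((Fin (d + 1) → κ) → K)))) ∧
      ∀ x : κ → L, (∀ g ∈ S, eval₂ σ x g = 0) → ∀ c ∈ 𝒞, ∑ a, σ (c a) * vr d x a = 0 := by
  classical
  obtain ⟨S₀, hS₀, hspan⟩ := (Submodule.fg_span_iff_fg_span_finset_subset (R := MvPolynomial κ K) S).1
    ((isNoetherianRing_iff_ideal_fg _).1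
      (inferInstance : IsNoetherianRing (MvPolynomial κ K)) (Ideal.span S))
  have hSS : ∀ y : κ → K, (∀ g ∈ S, eval y g = 0) ↔ ∀ g ∈ S₀, eval y g = 0 := by
    intro y
    constructor
    · exact fun h g hg => h g (hS₀ hg)
    · intro h g hg
      have hg' : g ∈ Submodule.span (MvPolynomial κ K) (S₀ : Set (MvPolynomial κ K)) := by
        rw [← hspan]
        exact Submodule.subset_span hg
      refine Submodule.span_induction (p := fun f _ => eval y f = 0) ?_ ?_ ?_ ?_ hg'
      · exact fun g hg => h g hg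
      · simp
      · intro a b _ _ ha hb
        rw [map_add, ha, hb, add_zero]
      · intro a b _ hb
        rw [smul_eq_mul, map_mul, hb, mul_zero]
  choose! e he using hS
  let d : ℕ := S₀.sup e
  have hed : ∀ g ∈ S₀, e g ≤ d + 1 := fun g hg => (Finset.le_sup (f := e) hg).trans (Nat.le_succ _)
  have hrep : ∀ (g : MvPolynomial κ K) (j : κ), ∃ c : (Fin (d + 1) → κ) → K, g ∈ S₀ →
      g * X j ^ (d + 1 - e g) = ∑ a, C (c a) * ∏ k, X (a k) := by
    intro g j
    by_cases hg : g ∈ S₀
    · have h1 : (g * X j ^ (d + 1 - e g)).IsHomogeneous (Fintype.card (Fin (d + 1))) := by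
        have h2 := (he g (hS₀ hg)).mul ((isHomogeneous_X K j).pow (d + 1 - e g))
        have h3 : e g + 1 * (d + 1 - e g) = Fintype.card (Fin (d + 1)) := by
          have := hed g hg
          rw [Fintype.card_fin]
          omega
        rwa [h3] at h2
      obtain ⟨c, hc⟩ := hom_rep h1
      exact ⟨c, fun _ => hc⟩
    · exact ⟨0, fun h => absurd h hg⟩
  choose c hc using hrep
  refine ⟨d, (S₀ ×ˢ (Finset.univ : Finset κ)).image fun p => c p.1 p.2, ?_, ?_⟩
  · intro y hy
    rw [hSS]
    have hval : ∀ g ∈ S₀, ∀ j, ∑ a, c g j a * vr d y a = eval y g * y j ^ (d + 1 - e g) := by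
      intro g hg j
      have h1 := congrArg (eval y) (hc g j hg)
      rw [map_mul, map_pow, eval_X, map_sum] at h1
      rw [h1]
      refine Finset.sum_congr rfl fun a _ => ?_
      rw [map_mul, eval_C, map_prod]
      simp only [eval_X, vr]
    constructor
    · rintro h c' hc'
      rw [Finset.mem_coe, Finset.mem_image] at hc'
      obtain ⟨⟨g, j⟩, hp, rfl⟩ := hc'
      have hg := (Finset.mem_product.1 hp).1
      simp only at hg ⊢
      rw [hval g hg, h g hg, zero_mul]
    · intro h g hg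
      obtain ⟨j, hj⟩ : ∃ j, y j ≠ 0 := Function.ne_iff.1 hy
      have h1 := h (c g j) (by
        rw [Finset.mem_coe, Finset.mem_image]
        exact ⟨⟨g, j⟩, Finset.mem_product.2 ⟨hg, Finset.mem_univ j⟩, rfl⟩)
      rw [hval g hg] at h1
      exact (mul_eq_zero.1 h1).resolve_right (pow_ne_zero _ hj)
  · intro x hx c' hc'
    rw [Finset.mem_image] at hc'
    obtain ⟨⟨g, j⟩, hp, rfl⟩ := hc'
    have hg := (Finset.mem_product.1 hp).1
    simp only at hg ⊢
    have h1 := congrArg (eval₂ σ x) (hc g j hg)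
    rw [eval₂_mul, hx g (hS₀ hg), zero_mul, eval₂_sum] at h1
    rw [h1]
    refine Finset.sum_congr rfl fun a _ => ?_
    rw [eval₂_mul, eval₂_C, eval₂_prod]
    simp only [eval₂_X, vr]

/-- reduction to quadrics -/
theorem reduce [Infinite K] (σ : K →+* L) (S : Set (MvPolynomial κ K))
    (hS : ∀ f ∈ S, ∃ e : ℕ, f.IsHomogeneous e) :
    ∃ (d : ℕ) (T : Finset (MvPolynomial (Fin (d + 1) → κ) K)), (∀ q ∈ T, q.IsHomogeneous 2) ∧
      ∀ T' : Set (MvPolynomial (Fin (d + 1) → κ) K),
        (∀ z : (Fin (d + 1) → κ) → K, (∀ q ∈ T', eval z q = 0) ↔ ∀ q ∈ T, eval z q = 0) →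
        (∀ x : (Fin (d + 1) → κ) → L, (∀ q ∈ T, eval₂ σ x q = 0) →
          ∀ q ∈ T', eval₂ σ x q = 0) →
        (LIs σ T').Finite → (LIs σ S).Finite := by
  obtain ⟨d, 𝒞, h1, h2⟩ := common_degree σ S hS
  refine ⟨d, quads 𝒞, quads_hom 𝒞, fun T' hT'1 hT'2 hfin => ?_⟩
  refine (hfin.image fun J => {f | ∀ y : κ → K, y ≠ 0 → vr d y ∈ Zer J →
    ∀ t : K, eval (t • y) f = 0}).subset ?_
  rintro _ ⟨x, hx0, hx, rfl⟩
  refine ⟨_, ⟨vr d x, vr_ne hx0, hT'2 _ (quads_zero₂ σ 𝒞 x (h2 x hx)), rfl⟩, ?_⟩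
  have h3 : {z : (Fin (d + 1) → κ) → K | ∀ g ∈ T', eval z g = 0} =
      cB (𝒞 : Set ((Fin (d + 1) → κ) → K)) := by
    ext z
    rw [← quads_zero, ← hT'1 z]
    rfl
  rw [h3]
  have h4 := loc_vr σ (𝒞 : Set ((Fin (d + 1) → κ) → K)) hx0
  rw [loc_congr σ (A := {y : κ → K | ∀ g ∈ S, eval y g = 0})
    (B := cA (𝒞 : Set ((Fin (d + 1) → κ) → K))) (fun y hy => h1 y hy), h4]

end quad

section irr

attribute [local instance] MvPolynomial.gradedAlgebra

variable {κ : Type} [Fintype κ]

theorem decompose_eq (g : MvPolynomial κ K) (e : ℕ) :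
    ((DirectSum.decompose (homogeneousSubmodule κ K) g e : homogeneousSubmodule κ K e) :
      MvPolynomial κ K) = homogeneousComponent e g :=
  decomposition.decompose'_apply g e

/-- the ideals of the local closures of the zero set of an ideal -/
def QI (σ : K →+* L) (I : Ideal (MvPolynomial κ K)) : Set (Set (MvPolynomial κ K)) :=
  LIs σ (I : Set (MvPolynomial κ K))

theorem zero_span {R : Type*} [CommRing R] (φ : MvPolynomial κ K →+* R)
    (S : Set (MvPolynomial κ K)) : (∀ g ∈ S, φ g = 0) ↔ ∀ g ∈ Ideal.span S, φ g = 0 := by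
  constructor
  · intro h g hg
    have : Ideal.span S ≤ RingHom.ker φ := Ideal.span_le.2 fun g hg => h g hg
    exact this hg
  · exact fun h g hg => h g (Ideal.subset_span hg)

theorem LIs_span (σ : K →+* L) (S : Set (MvPolynomial κ K)) : LIs σ S = QI σ (Ideal.span S) := by
  unfold QI LIs
  have h1 : ∀ x : κ → L, (∀ g ∈ S, eval₂ σ x g = 0) ↔
      ∀ g ∈ (Ideal.span S : Set (MvPolynomial κ K)), eval₂ σ x g = 0 := fun x =>
    zero_span (eval₂Hom σ x) S
  have h2 : {y : κ → K | ∀ g ∈ S, eval y g = 0} =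
      {y | ∀ g ∈ (Ideal.span S : Set (MvPolynomial κ K)), eval y g = 0} := by
    ext y
    exact zero_span (eval y) S
  simp only [h1, h2]

theorem LIs_congr (σ : K →+* L) {S T : Set (MvPolynomial κ K)}
    (h1 : ∀ y : κ → K, (∀ g ∈ S, eval y g = 0) ↔ ∀ g ∈ T, eval y g = 0)
    (h2 : ∀ x : κ → L, (∀ g ∈ S, eval₂ σ x g = 0) ↔ ∀ g ∈ T, eval₂ σ x g = 0) :
    LIs σ S = LIs σ T := by
  unfold LIs
  have h3 : {y : κ → K | ∀ g ∈ S, eval y g = 0} = {y | ∀ g ∈ T, eval y g = 0} := by
    ext y
    exact h1 y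
  simp only [h2, h3]

/-- the zero sets of an ideal and of its radical are equal -/
theorem QI_radical (σ : K →+* L) (I : Ideal (MvPolynomial κ K)) : QI σ I.radical = QI σ I := by
  refine LIs_congr σ (fun y => ⟨fun h g hg => h g (Ideal.le_radical hg), fun h g hg => ?_⟩)
    (fun x => ⟨fun h g hg => h g (Ideal.le_radical hg), fun h g hg => ?_⟩)
  · obtain ⟨n, hn⟩ := Ideal.mem_radical_iff.1 hg
    have := h _ hn
    rw [map_pow] at this
    by_contra hne
    exact pow_ne_zero n hne this
  · obtain ⟨n, hn⟩ := Ideal.mem_radical_iff.1 hg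
    have := h _ hn
    rw [eval₂_pow] at this
    by_contra hne
    exact pow_ne_zero n hne this

theorem eval₂_smul_hom (σ : K →+* L) {g : MvPolynomial κ K} {e : ℕ} (hg : g.IsHomogeneous e)
    (c : L) (y : κ → K) : eval₂ σ (fun i => c * σ (y i)) g = c ^ e * σ (eval y g) := by
  have h1 : (MvPolynomial.map σ g).IsHomogeneous e := hg.map σ
  have h2 := eval_smul_hom h1 c (fun i => σ (y i))
  rw [eval_map, eval_map] at h2
  have h3 : eval₂ σ (fun i => σ (y i)) g = σ (eval y g) := (eval₂_comp σ y g).symm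
  rw [h3] at h2
  exact h2

/-- away from the closed set the local ideal is everything -/
theorem loc_univ (σ : K →+* L) {I : Ideal (MvPolynomial κ K)}
    (hI : I.IsHomogeneous (homogeneousSubmodule κ K)) {x : κ → L}
    (hx : ¬ ∀ g ∈ I, eval₂ σ x g = 0) :
    loc σ {y | ∀ g ∈ (I : Set (MvPolynomial κ K)), eval y g = 0} x = Set.univ := by
  classical
  have hex : ∃ g ∈ I, ∃ e, g.IsHomogeneous e ∧ eval₂ σ x g ≠ 0 := by
    by_contra hcon
    push Not at hcon
    refine hx fun g hg => ?_
    rw [← sum_homogeneousComponent g, eval₂_sum]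
    refine Finset.sum_eq_zero fun e _ => hcon _ ?_ e (homogeneousComponent_isHomogeneous e g)
    have h1 := hI e hg
    rwa [decompose_eq] at h1
  obtain ⟨g, hg, e, he, hne⟩ := hex
  refine Set.eq_univ_of_forall fun f => ?_
  have hcont : Continuous fun z : κ → L => eval₂ σ z g := by
    have h : (fun z : κ → L => eval₂ σ z g) = fun z => eval z (MvPolynomial.map σ g) := by
      funext z
      rw [eval_map]
    rw [h]
    exact MvPolynomial.continuous_eval _
  refine ⟨{z | eval₂ σ z g ≠ 0}, hcont.continuousAt.eventually_ne hne, ?_⟩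
  rintro y hy0 hy ⟨c, hc, hcU⟩ t
  refine absurd ?_ hcU
  rw [eval₂_smul_hom σ he, hy g hg, map_zero, mul_zero]

theorem QI_union (σ : K →+* L) {I I₁ I₂ : Ideal (MvPolynomial κ K)}
    (h1 : I₁.IsHomogeneous (homogeneousSubmodule κ K))
    (h2 : I₂.IsHomogeneous (homogeneousSubmodule κ K))
    (hK : ∀ y : κ → K, (∀ g ∈ I, eval y g = 0) ↔
      (∀ g ∈ I₁, eval y g = 0) ∨ ∀ g ∈ I₂, eval y g = 0)
    (hf1 : (QI σ I₁).Finite) (hf2 : (QI σ I₂).Finite) : (QI σ I).Finite := by
  classical
  refine (((hf1.insert Set.univ).prod (hf2.insert Set.univ)).image fun p => p.1 ∩ p.2).subset ?_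
  rintro _ ⟨x, hx0, -, rfl⟩
  have hmem : ∀ I' : Ideal (MvPolynomial κ K), I'.IsHomogeneous (homogeneousSubmodule κ K) →
      loc σ {y | ∀ g ∈ (I' : Set (MvPolynomial κ K)), eval y g = 0} x ∈
        insert Set.univ (QI σ I') := by
    intro I' hI'
    by_cases hx : ∀ g ∈ I', eval₂ σ x g = 0
    · exact Set.mem_insert_of_mem _ ⟨x, hx0, hx, rfl⟩
    · rw [loc_univ σ hI' hx]
      exact Set.mem_insert _ _
  refine ⟨(_, _), ⟨hmem I₁ h1, hmem I₂ h2⟩, ?_⟩
  ext f
  constructor
  · rintro ⟨⟨U, hU, hfU⟩, ⟨V, hV, hfV⟩⟩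
    refine ⟨U ∩ V, Filter.inter_mem hU hV, ?_⟩
    rintro y hy0 hy ⟨c, hc, hcU, hcV⟩ t
    rcases (hK y).1 hy with h | h
    · exact hfU y hy0 h ⟨c, hc, hcU⟩ t
    · exact hfV y hy0 h ⟨c, hc, hcV⟩ t
  · rintro ⟨U, hU, hf⟩
    exact ⟨⟨U, hU, fun y hy0 hy => hf y hy0 ((hK y).2 (Or.inl hy))⟩,
      ⟨U, hU, fun y hy0 hy => hf y hy0 ((hK y).2 (Or.inr hy))⟩⟩

/-- it suffices to consider irreducible sets -/
theorem of_irreducible (σ : K →+* L)
    (h : ∀ S : Set (MvPolynomial κ K), (∀ f ∈ S, ∃ e : ℕ, f.IsHomogeneous e) →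
      (Ideal.span S).radical.IsPrime → (LIs σ S).Finite)
    (S : Set (MvPolynomial κ K)) (hS : ∀ f ∈ S, ∃ e : ℕ, f.IsHomogeneous e) :
    (LIs σ S).Finite := by
  classical
  have key : ∀ I : Ideal (MvPolynomial κ K), I.IsHomogeneous (homogeneousSubmodule κ K) →
      (QI σ I).Finite := by
    intro I
    induction I using WellFoundedGT.induction with
    | ind I ih =>
      intro hI
      by_cases hp : I.radical.IsPrime
      · have hspan : Ideal.span {f | f ∈ I ∧ ∃ e : ℕ, f.IsHomogeneous e} = I := by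
          refine le_antisymm (Ideal.span_le.2 fun f hf => hf.1) ?_
          intro f hf
          rw [← sum_homogeneousComponent f]
          refine Ideal.sum_mem _ fun e _ => Ideal.subset_span ⟨?_, e,
            homogeneousComponent_isHomogeneous e f⟩
          have h1 := hI e hf
          rwa [decompose_eq] at h1
        have h1 := h {f | f ∈ I ∧ ∃ e : ℕ, f.IsHomogeneous e} (fun f hf => hf.2)
          (by rw [hspan]; exact hp)
        rwa [LIs_span, hspan] at h1
      · by_cases htop : I.radical = ⊤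
        · rw [← QI_radical, htop]
          refine Set.Finite.subset Set.finite_empty ?_
          rintro _ ⟨x, -, hx, -⟩
          have h1 := hx 1 (by trivial)
          simp at h1
        · have hR := hI.radical
          have hex : ∃ a b : MvPolynomial κ K,
              SetLike.IsHomogeneousElem (homogeneousSubmodule κ K) a ∧
              SetLike.IsHomogeneousElem (homogeneousSubmodule κ K) b ∧
              a * b ∈ I.radical ∧ a ∉ I.radical ∧ b ∉ I.radical := by
            by_contra hcon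
            push Not at hcon
            refine hp (hR.isPrime_of_homogeneous_mem_or_mem htop ?_)
            intro a b ha hb hab
            by_contra hor
            rw [not_or] at hor
            exact hor.2 (hcon a b ha hb hab hor.1)
          obtain ⟨a, b, ha, hb, hab, haR, hbR⟩ := hex
          have hhom : ∀ c : MvPolynomial κ K,
              SetLike.IsHomogeneousElem (homogeneousSubmodule κ K) c →
              (I.radical ⊔ Ideal.span {c}).IsHomogeneous (homogeneousSubmodule κ K) := by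
            intro c hc
            refine hR.sup (Ideal.homogeneous_span _ _ ?_)
            rintro _ rfl
            exact hc
          have hlt : ∀ c : MvPolynomial κ K, c ∉ I.radical → I < I.radical ⊔ Ideal.span {c} := by
            intro c hc
            refine lt_of_le_of_ne (Ideal.le_radical.trans le_sup_left) ?_
            intro heq
            refine hc (Ideal.le_radical ?_)
            rw [heq]
            exact Ideal.mem_sup_right (Ideal.mem_span_singleton_self c)
          rw [← QI_radical]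
          refine QI_union σ (hhom a ha) (hhom b hb) ?_ (ih _ (hlt a haR) (hhom a ha))
            (ih _ (hlt b hbR) (hhom b hb))
          intro y
          have hsup : ∀ c : MvPolynomial κ K, (∀ g ∈ I.radical ⊔ Ideal.span {c}, eval y g = 0) ↔
              (∀ g ∈ I.radical, eval y g = 0) ∧ eval y c = 0 := by
            intro c
            constructor
            · exact fun h => ⟨fun g hg => h g (Ideal.mem_sup_left hg),
                h c (Ideal.mem_sup_right (Ideal.mem_span_singleton_self c))⟩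
            · rintro ⟨h1, h2⟩ g hg
              obtain ⟨u, hu, w, hw, rfl⟩ := Submodule.mem_sup.1 hg
              obtain ⟨w', rfl⟩ := Ideal.mem_span_singleton'.1 hw
              rw [map_add, map_mul, h1 u hu, h2, mul_zero, add_zero]
          rw [hsup, hsup]
          constructor
          · intro h
            have h1 := h _ hab
            rw [map_mul, mul_eq_zero] at h1
            rcases h1 with h1 | h1
            · exact Or.inl ⟨h, h1⟩
            · exact Or.inr ⟨h, h1⟩
          · rintro (h | h)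
            · exact h.1
            · exact h.1
  rw [LIs_span]
  refine key _ (Ideal.homogeneous_span _ _ fun f hf => ?_)
  obtain ⟨e, he⟩ := hS f hf
  exact ⟨e, he⟩

end irr

end Pool.Agent.Q256.Red
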