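import Mathlib

/-!
Voronoi cells, the survival number, and graphs given by an integer valued metric.
-/

namespace Pool.Agent.Q256.Surv

open SimpleGraph

variable {V : Type*}

/-- the Voronoi cell `C(v, T)` -/
def cell (G : SimpleGraph V) (v : V) (T : Finset V) : Set V :=
  {u | ∀ v' ∈ T, G.dist u v ≤ G.dist u v'}

/-- `I(T)`, the number of infinite Voronoi cells -/
noncomputable def numInfinite (G : SimpleGraph V) (T : Finset V) : ℕ :=
  ({v | v ∈ T ∧ (cell G v T).Infinite} : Set V).ncard

/-- membership in `𝒯(d, n)`: at least `n` points, pairwise at distance `> d` -/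
def Separated (G : SimpleGraph V) (d n : ℕ) (T : Finset V) : Prop :=
  n ≤ T.card ∧ ∀ v₁ ∈ T, ∀ v₂ ∈ T, v₁ ≠ v₂ → d < G.dist v₁ v₂

/-- the survival number `s(G)` -/
noncomputable def survival (G : SimpleGraph V) : ℕ∞ :=
  ⨆ n ∈ {n : ℕ | 1 ≤ n ∧ ∃ d : ℕ, ∀ T : Finset V, Separated G d n T → n ≤ numInfinite G T},
    (n : ℕ∞)

/-- vertex-transitivity -/
def VertexTransitive (G : SimpleGraph V) : Prop := ∀ u v : V, ∃ φ : G ≃g G, φ u = v

/-! ### general facts -/

theorem finite_ball (G : SimpleGraph V) [G.LocallyFinite] (hc : G.Connected) (v : V) (r : ℕ) :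
    {u | G.dist u v ≤ r}.Finite := by
  classical
  induction r with
  | zero =>
    refine (Set.finite_singleton v).subset ?_
    intro u hu
    have h1 : G.dist u v = 0 := by simpa using hu
    exact (hc.dist_eq_zero_iff.1 h1)
  | succ r ih =>
    refine (ih.union (ih.biUnion (fun w _ => (G.neighborSet w).toFinite))).subset ?_
    intro u hu
    have hu' : G.dist u v ≤ r + 1 := hu
    by_cases h : G.dist u v ≤ r
    · exact Or.inl h
    · right
      obtain ⟨p, hp⟩ := hc.exists_walk_length_eq_dist u v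
      cases p with
      | nil => exact absurd (by simp) h
      | @cons _ w _ hadj q =>
        refine Set.mem_biUnion (x := w) ?_ ?_
        · change G.dist w v ≤ r
          have := dist_le q
          simp only [Walk.length_cons] at hp
          omega
        · exact hadj.symm

theorem exists_far (G : SimpleGraph V) [Infinite V] [G.LocallyFinite] (hc : G.Connected)
    (T : Finset V) (d : ℕ) : ∃ x : V, ∀ v ∈ T, d < G.dist x v := by
  have hfin : (⋃ v ∈ T, {u | G.dist u v ≤ d}).Finite :=
    Set.Finite.biUnion T.finite_toSet (fun v _ => finite_ball G hc v d)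
  obtain ⟨x, hx⟩ := hfin.exists_notMem
  refine ⟨x, fun v hv => ?_⟩
  by_contra hcon
  exact hx (Set.mem_biUnion (x := v) hv (not_lt.1 hcon))

theorem exists_extend (G : SimpleGraph V) [Infinite V] [G.LocallyFinite] (hc : G.Connected)
    (T : Finset V) (d : ℕ) (hsep : ∀ v₁ ∈ T, ∀ v₂ ∈ T, v₁ ≠ v₂ → d < G.dist v₁ v₂) (k : ℕ) :
    ∃ T' : Finset V, T ⊆ T' ∧ T'.card = T.card + k ∧
      ∀ v₁ ∈ T', ∀ v₂ ∈ T', v₁ ≠ v₂ → d < G.dist v₁ v₂ := by
  classical
  induction k with
  | zero => exact ⟨T, subset_rfl, by simp, hsep⟩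
  | succ k ih =>
    obtain ⟨T', hsub, hcard, hs⟩ := ih
    obtain ⟨x, hx⟩ := exists_far G hc T' d
    have hxT : x ∉ T' := by
      intro h
      have := hx x h
      simp at this
    refine ⟨insert x T', hsub.trans (Finset.subset_insert _ _), ?_, ?_⟩
    · rw [Finset.card_insert_of_notMem hxT, hcard]; rfl
    · intro v₁ h₁ v₂ h₂ hne
      rw [Finset.mem_insert] at h₁ h₂
      rcases h₁ with rfl | h₁ <;> rcases h₂ with rfl | h₂
      · exact absurd rfl hne
      · exact hx v₂ h₂
      · rw [dist_comm]; exact hx v₁ h₁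
      · exact hs v₁ h₁ v₂ h₂ hne

theorem numInfinite_lt (G : SimpleGraph V) (T : Finset V) (w : V) (hw : w ∈ T)
    (hfin : (cell G w T).Finite) : numInfinite G T < T.card := by
  classical
  unfold numInfinite
  have h1 : ({v | v ∈ T ∧ (cell G v T).Infinite} : Set V) ⊆ ((T.erase w : Finset V) : Set V) := by
    rintro v ⟨hv, hv'⟩
    rw [Finset.mem_coe, Finset.mem_erase]
    refine ⟨?_, hv⟩
    rintro rfl
    exact hv' hfin
  have h2 := Set.ncard_le_ncard h1 (Finset.finite_toSet _)
  rw [Set.ncard_coe_finset, Finset.card_erase_of_mem hw] at h2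
  have : 0 < T.card := Finset.card_pos.2 ⟨w, hw⟩
  omega

/-- a configuration of `n + 1` separated points, one of which has a finite cell, for every `d`,
bounds the survival number by `n`. -/
theorem survival_le (G : SimpleGraph V) [Infinite V] [G.LocallyFinite] (hc : G.Connected) (n : ℕ)
    (h : ∀ d : ℕ, ∃ T : Finset V, T.card = n + 1 ∧
      (∀ v₁ ∈ T, ∀ v₂ ∈ T, v₁ ≠ v₂ → d < G.dist v₁ v₂) ∧ ∃ w ∈ T, (cell G w T).Finite) :
    survival G ≤ n := by
  classical
  unfold survival
  refine iSup₂_le ?_
  rintro m ⟨-, d, hd⟩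
  by_contra hcon
  have hnm : n < m := by
    have : (n : ℕ∞) < (m : ℕ∞) := not_le.1 hcon
    exact_mod_cast this
  obtain ⟨T, hcard, hsep, w, hw, hwfin⟩ := h d
  obtain ⟨T', hsub, hcard', hsep'⟩ := exists_extend G hc T d hsep (m - (n + 1))
  have h1 := hd T' ⟨by omega, hsep'⟩
  have h2 : (cell G w T').Finite := by
    refine hwfin.subset ?_
    intro u hu v hv
    exact hu v (hsub hv)
  have h3 := numInfinite_lt G T' w (hsub hw) h2
  omega

/-- if all large separated sets with fewer than `n` infinite cells are excluded for every `n`,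
the survival number is infinite -/
theorem survival_eq_top (G : SimpleGraph V)
    (h : ∀ n : ℕ, ∃ d : ℕ, ∀ T : Finset V, Separated G d n T → n ≤ numInfinite G T) :
    survival G = ⊤ := by
  rw [ENat.eq_top_iff_forall_ge]
  intro n
  have h1 : (n : ℕ∞) ≤ ((n + 1 : ℕ) : ℕ∞) := by exact_mod_cast Nat.le_succ n
  refine h1.trans ?_
  unfold survival
  exact le_iSup₂_of_le (n + 1) ⟨by omega, h (n + 1)⟩ le_rfl

/-- If fewer than `n` of at least `n` cells are infinite, then some site `w` is beaten at all but
finitely many vertices by the sites with infinite cells. -/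
theorem exists_beaten (G : SimpleGraph V) (T : Finset V) (h : numInfinite G T < T.card) :
    ∃ w ∈ T, ∃ P : Finset V, P ⊆ T ∧ P.card = numInfinite G T ∧ w ∉ P ∧
      {u | ∀ p ∈ P, G.dist u w ≤ G.dist u p}.Finite := by
  classical
  set P : Finset V := T.filter (fun v => (cell G v T).Infinite) with hP
  have hPcard : P.card = numInfinite G T := by
    unfold numInfinite
    rw [← Set.ncard_coe_finset, hP]
    congr 1
    ext v
    simp
  have hlt : P.card < T.card := by omega
  obtain ⟨w, hwT, hwP⟩ : ∃ w ∈ T, w ∉ P := by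
    by_contra hcon
    push Not at hcon
    exact absurd (Finset.card_le_card (fun v hv => hcon v hv)) (by omega)
  refine ⟨w, hwT, P, Finset.filter_subset _ _, hPcard, hwP, ?_⟩
  have hfin : (⋃ v ∈ T \ P, cell G v T).Finite := by
    refine Set.Finite.biUnion (T \ P).finite_toSet ?_
    intro v hv
    rw [Finset.mem_coe, Finset.mem_sdiff] at hv
    by_contra hcon
    exact hv.2 (by rw [hP, Finset.mem_filter]; exact ⟨hv.1, hcon⟩)
  refine hfin.subset ?_
  intro u hu
  -- the nearest site
  obtain ⟨v, hvT, hv⟩ := Finset.exists_min_image T (fun v => G.dist u v) ⟨w, hwT⟩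
  by_cases hvP : v ∈ P
  · refine Set.mem_biUnion (x := w) (by simp [hwT, hwP]) ?_
    intro v' hv'
    exact (hu v hvP).trans (hv v' hv')
  · refine Set.mem_biUnion (x := v) (by simp [hvT, hvP]) ?_
    intro v' hv'
    exact hv v' hv'

/-- the version for all sites at once -/
theorem exists_beaten_all (G : SimpleGraph V) (T : Finset V) (hne : T.Nonempty) :
    ∃ P : Finset V, P ⊆ T ∧ P.card = numInfinite G T ∧
      ∀ w ∈ T, w ∉ P → {u | ∀ p ∈ P, G.dist u w ≤ G.dist u p}.Finite := by
  classical
  set P : Finset V := T.filter (fun v => (cell G v T).Infinite) with hP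
  have hPcard : P.card = numInfinite G T := by
    unfold numInfinite
    rw [← Set.ncard_coe_finset, hP]
    congr 1
    ext v
    simp
  refine ⟨P, Finset.filter_subset _ _, hPcard, ?_⟩
  intro w hwT hwP
  have hfin : (⋃ v ∈ T \ P, cell G v T).Finite := by
    refine Set.Finite.biUnion (T \ P).finite_toSet ?_
    intro v hv
    rw [Finset.mem_coe, Finset.mem_sdiff] at hv
    by_contra hcon
    exact hv.2 (by rw [hP, Finset.mem_filter]; exact ⟨hv.1, hcon⟩)
  refine hfin.subset ?_
  intro u hu
  obtain ⟨v, hvT, hv⟩ := Finset.exists_min_image T (fun v => G.dist u v) hne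
  by_cases hvP : v ∈ P
  · refine Set.mem_biUnion (x := w) (by simp [hwT, hwP]) ?_
    intro v' hv'
    exact (hu v hvP).trans (hv v' hv')
  · refine Set.mem_biUnion (x := v) (by simp [hvT, hvP]) ?_
    intro v' hv'
    exact hv v' hv'

/-! ### graphs given by an integer valued metric -/

/-- an integer valued geodesic metric -/
structure GeoMetric (D : V → V → ℕ) : Prop where
  self : ∀ u, D u u = 0
  eq_of : ∀ u v, D u v = 0 → u = v
  symm : ∀ u v, D u v = D v u
  tri : ∀ u v w, D u w ≤ D u v + D v w
  desc : ∀ u v, u ≠ v → ∃ w, D v w = 1 ∧ D u v = D u w + 1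

/-- the graph of pairs at `D`-distance one -/
def ofD (D : V → V → ℕ) (hD : GeoMetric D) : SimpleGraph V where
  Adj u v := D u v = 1
  symm := ⟨fun u v h => by rw [hD.symm]; exact h⟩
  loopless := ⟨fun u h => by rw [hD.self] at h; omega⟩

theorem ofD_walk (D : V → V → ℕ) (hD : GeoMetric D) (n : ℕ) : ∀ u v : V, D u v = n →
    ∃ p : (ofD D hD).Walk v u, p.length = n := by
  induction n with
  | zero =>
    intro u v h
    obtain rfl := hD.eq_of u v h
    exact ⟨Walk.nil, rfl⟩
  | succ n ih =>
    intro u v h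
    have hne : u ≠ v := by
      rintro rfl
      rw [hD.self] at h
      omega
    obtain ⟨w, hw1, hw2⟩ := hD.desc u v hne
    obtain ⟨p, hp⟩ := ih u w (by omega)
    exact ⟨Walk.cons (show (ofD D hD).Adj v w from hw1) p, by simp [hp]⟩

theorem ofD_le_walk (D : V → V → ℕ) (hD : GeoMetric D) {u v : V} (p : (ofD D hD).Walk u v) :
    D u v ≤ p.length := by
  induction p with
  | nil => simp [hD.self]
  | @cons a b c h q ih =>
    have h1 : D a b = 1 := h
    have h2 := hD.tri a b c
    simp only [Walk.length_cons]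
    omega

theorem ofD_connected [Nonempty V] (D : V → V → ℕ) (hD : GeoMetric D) :
    (ofD D hD).Connected := by
  refine ⟨?_⟩
  intro u v
  obtain ⟨p, -⟩ := ofD_walk D hD _ v u rfl
  exact ⟨p⟩

theorem ofD_dist (D : V → V → ℕ) (hD : GeoMetric D) (u v : V) :
    (ofD D hD).dist u v = D u v := by
  have : Nonempty V := ⟨u⟩
  apply le_antisymm
  · obtain ⟨p, hp⟩ := ofD_walk D hD _ v u rfl
    rw [hD.symm u v, ← hp]
    exact dist_le p
  · obtain ⟨p, hp⟩ := (ofD_connected D hD).exists_walk_length_eq_dist u v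
    rw [← hp]
    exact ofD_le_walk D hD p

end Pool.Agent.Q256.Surv
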