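import Pool.Agent.Q256.Surv

/-!
The strong and the Cartesian product of the four-regular tree (Cayley graph of the free group of
rank two) with the two-way infinite path.
-/

namespace Pool.Agent.Q256.TreeZ

open SimpleGraph Pool.Agent.Q256.Surv

/-- the free group of rank two -/
abbrev F := FreeGroup Bool

/-- letters -/
abbrev Lt := Bool × Bool

/-- the generator of a letter -/
def gen (s : Lt) : F := FreeGroup.mk [s]

/-- inverse letter -/
def opp (s : Lt) : Lt := (s.1, !s.2)

theorem gen_inv (s : Lt) : (gen s)⁻¹ = gen (opp s) := by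
  simp [gen, opp, FreeGroup.inv_mk, FreeGroup.invRev]

theorem opp_opp (s : Lt) : opp (opp s) = s := by simp [opp]

theorem toWord_gen (s : Lt) : (gen s).toWord = [s] := by
  rw [gen, FreeGroup.toWord_mk, FreeGroup.reduce_singleton]

theorem norm_gen (s : Lt) : (gen s).norm = 1 := by
  rw [FreeGroup.norm, toWord_gen]; rfl

theorem eq_mk_cons {x : F} {s : Lt} {w : List Lt} (h : x.toWord = s :: w) :
    x = gen s * FreeGroup.mk w := by
  rw [gen, FreeGroup.mul_mk]
  conv_lhs => rw [← FreeGroup.mk_toWord (x := x), h]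
  rfl

theorem toWord_tail {x : F} {s : Lt} {w : List Lt} (h : x.toWord = s :: w) :
    (FreeGroup.mk w).toWord = w := by
  rw [FreeGroup.toWord_mk]
  apply FreeGroup.IsReduced.reduce_eq
  have h1 : FreeGroup.IsReduced (s :: w) := by
    rw [← h]; exact FreeGroup.isReduced_toWord
  exact (List.isChain_cons.1 h1).2

theorem toWord_drop {x : F} {s : Lt} {w : List Lt} (h : x.toWord = s :: w) :
    ((gen s)⁻¹ * x).toWord = w := by
  rw [eq_mk_cons h, inv_mul_cancel_left]
  exact toWord_tail h

theorem norm_drop {x : F} {s : Lt} {w : List Lt} (h : x.toWord = s :: w) :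
    x.norm = ((gen s)⁻¹ * x).norm + 1 := by
  rw [FreeGroup.norm, FreeGroup.norm, toWord_drop h, h]; rfl

theorem exists_letter {x : F} (h : x ≠ 1) : ∃ s : Lt, ∃ w : List Lt, x.toWord = s :: w := by
  cases hx : x.toWord with
  | nil => exact absurd (FreeGroup.toWord_eq_nil_iff.1 hx) h
  | cons s w => exact ⟨s, w, rfl⟩

/-- descending step in the tree -/
theorem tree_desc {x y : F} (h : x ≠ y) : ∃ t : F, (t⁻¹ * y).norm = 1 ∧
    (y⁻¹ * x).norm = (t⁻¹ * x).norm + 1 := by
  have h1 : y⁻¹ * x ≠ 1 := by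
    intro h2
    exact h (inv_mul_eq_one.1 h2).symm
  obtain ⟨s, w, hs⟩ := exists_letter h1
  refine ⟨y * gen s, ?_, ?_⟩
  · rw [mul_inv_rev, inv_mul_cancel_right, FreeGroup.norm_inv_eq, norm_gen]
  · rw [norm_drop hs, mul_inv_rev, mul_assoc]

theorem norm_symm (x y : F) : (y⁻¹ * x).norm = (x⁻¹ * y).norm := by
  rw [← FreeGroup.norm_inv_eq (x := y⁻¹ * x)]
  congr 1
  group

theorem norm_tri (x y z : F) : (z⁻¹ * x).norm ≤ (y⁻¹ * x).norm + (z⁻¹ * y).norm := by
  have h : z⁻¹ * x = (z⁻¹ * y) * (y⁻¹ * x) := by group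
  rw [h, add_comm]
  exact FreeGroup.norm_mul_le _ _

theorem int_desc {i j : ℤ} (h : i ≠ j) : ∃ k : ℤ, (j - k).natAbs = 1 ∧
    (i - j).natAbs = (i - k).natAbs + 1 := by
  by_cases hij : i < j
  · exact ⟨j - 1, by omega, by omega⟩
  · exact ⟨j + 1, by omega, by omega⟩

/-- metric of the strong product -/
def DS (u v : F × ℤ) : ℕ := max (v.1⁻¹ * u.1).norm (u.2 - v.2).natAbs

/-- metric of the Cartesian product -/
def DC (u v : F × ℤ) : ℕ := (v.1⁻¹ * u.1).norm + (u.2 - v.2).natAbs

theorem geoS : GeoMetric DS where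
  self u := by simp [DS]
  eq_of u v h := by
    have h1 : (v.1⁻¹ * u.1).norm = 0 := by unfold DS at h; omega
    have h2 : (u.2 - v.2).natAbs = 0 := by unfold DS at h; omega
    refine Prod.ext ?_ (by omega)
    exact (inv_mul_eq_one.1 (FreeGroup.norm_eq_zero.1 h1)).symm
  symm u v := by
    unfold DS
    rw [norm_symm u.1 v.1]
    omega
  tri u v w := by
    unfold DS
    have h1 := norm_tri u.1 v.1 w.1
    omega
  desc u v h := by
    by_cases h1 : u.1 = v.1
    · have h2 : u.2 ≠ v.2 := fun h2 => h (Prod.ext h1 h2)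
      obtain ⟨k, hk1, hk2⟩ := int_desc h2
      refine ⟨(v.1, k), ?_, ?_⟩
      · simp only [DS, inv_mul_cancel, FreeGroup.norm_one]; omega
      · simp only [DS, h1, inv_mul_cancel, FreeGroup.norm_one]; omega
    · obtain ⟨t, ht1, ht2⟩ := tree_desc h1
      by_cases h2 : u.2 = v.2
      · refine ⟨(t, v.2), ?_, ?_⟩
        · simp only [DS]; omega
        · simp only [DS]; omega
      · obtain ⟨k, hk1, hk2⟩ := int_desc h2
        refine ⟨(t, k), ?_, ?_⟩
        · simp only [DS]; omega
        · simp only [DS]; omega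

theorem geoC : GeoMetric DC where
  self u := by simp [DC]
  eq_of u v h := by
    have h1 : (v.1⁻¹ * u.1).norm = 0 := by unfold DC at h; omega
    have h2 : (u.2 - v.2).natAbs = 0 := by unfold DC at h; omega
    refine Prod.ext ?_ (by omega)
    exact (inv_mul_eq_one.1 (FreeGroup.norm_eq_zero.1 h1)).symm
  symm u v := by
    unfold DC
    rw [norm_symm u.1 v.1]
    omega
  tri u v w := by
    unfold DC
    have h1 := norm_tri u.1 v.1 w.1
    omega
  desc u v h := by
    by_cases h1 : u.1 = v.1
    · have h2 : u.2 ≠ v.2 := fun h2 => h (Prod.ext h1 h2)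
      obtain ⟨k, hk1, hk2⟩ := int_desc h2
      refine ⟨(v.1, k), ?_, ?_⟩
      · simp only [DC, inv_mul_cancel, FreeGroup.norm_one]; omega
      · simp only [DC, h1, inv_mul_cancel, FreeGroup.norm_one]; omega
    · obtain ⟨t, ht1, ht2⟩ := tree_desc h1
      refine ⟨(t, v.2), ?_, ?_⟩
      · simp only [DC]; omega
      · simp only [DC]; omega

/-- the strong product of the tree with the path -/
def GS : SimpleGraph (F × ℤ) := ofD DS geoS

/-- the Cartesian product of the tree with the path -/
def GC : SimpleGraph (F × ℤ) := ofD DC geoC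

theorem GS_dist (u v : F × ℤ) : GS.dist u v = DS u v := ofD_dist DS geoS u v
theorem GC_dist (u v : F × ℤ) : GC.dist u v = DC u v := ofD_dist DC geoC u v
theorem GS_conn : GS.Connected := ofD_connected DS geoS
theorem GC_conn : GC.Connected := ofD_connected DC geoC

/-- translations -/
def trans (g : F) (k : ℤ) : F × ℤ ≃ F × ℤ :=
  Equiv.prodCongr (Equiv.mulLeft g) (Equiv.addLeft k)

theorem trans_apply (g : F) (k : ℤ) (u : F × ℤ) : trans g k u = (g * u.1, k + u.2) := rfl

theorem GS_vt : VertexTransitive GS := by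
  intro u v
  refine ⟨⟨trans (v.1 * u.1⁻¹) (v.2 - u.2), ?_⟩, ?_⟩
  · intro a b
    change DS _ _ = 1 ↔ DS _ _ = 1
    rw [trans_apply, trans_apply]
    have h1 : ((v.1 * u.1⁻¹ * b.1)⁻¹ * (v.1 * u.1⁻¹ * a.1)) = b.1⁻¹ * a.1 := by group
    simp only [DS, h1]
    rw [show v.2 - u.2 + a.2 - (v.2 - u.2 + b.2) = a.2 - b.2 by ring]
  · change trans _ _ u = v
    rw [trans_apply]
    refine Prod.ext ?_ ?_
    · simp
    · simp

theorem GC_vt : VertexTransitive GC := by
  intro u v
  refine ⟨⟨trans (v.1 * u.1⁻¹) (v.2 - u.2), ?_⟩, ?_⟩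
  · intro a b
    change DC _ _ = 1 ↔ DC _ _ = 1
    rw [trans_apply, trans_apply]
    have h1 : ((v.1 * u.1⁻¹ * b.1)⁻¹ * (v.1 * u.1⁻¹ * a.1)) = b.1⁻¹ * a.1 := by group
    simp only [DC, h1]
    rw [show v.2 - u.2 + a.2 - (v.2 - u.2 + b.2) = a.2 - b.2 by ring]
  · change trans _ _ u = v
    rw [trans_apply]
    refine Prod.ext ?_ ?_
    · simp
    · simp

/-! ### neighbours in the strong product -/

/-- at most one letter -/
def gO : Option Lt → F
  | none => 1
  | some s => gen s

/-- steps of the path -/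
def zO : Option Bool → ℤ
  | none => 0
  | some true => 1
  | some false => -1

theorem gen_inj {s t : Lt} (h : gen s = gen t) : s = t := by
  have h1 := congrArg FreeGroup.toWord h
  rw [toWord_gen, toWord_gen] at h1
  simpa using h1

theorem gen_ne_one (s : Lt) : gen s ≠ 1 := by
  intro h
  have := norm_gen s
  rw [h, FreeGroup.norm_one] at this
  omega

theorem gO_inj : Function.Injective gO := by
  intro a b h
  cases a with
  | none =>
    cases b with
    | none => rfl
    | some t => exact absurd h.symm (gen_ne_one t)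
  | some s =>
    cases b with
    | none => exact absurd h (gen_ne_one s)
    | some t => rw [gen_inj h]

theorem zO_inj : Function.Injective zO := by
  intro a b h
  rcases a with _ | (_ | _) <;> rcases b with _ | (_ | _) <;> simp_all [zO]

theorem norm_le_one {g : F} (h : g.norm ≤ 1) : ∃ o : Option Lt, gO o = g := by
  have h1 : g.toWord.length ≤ 1 := h
  cases hx : g.toWord with
  | nil => exact ⟨none, (FreeGroup.toWord_eq_nil_iff.1 hx).symm⟩
  | cons s w =>
    rw [hx] at h1
    have hw : w = [] := by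
      rw [← List.length_eq_zero_iff]
      simp only [List.length_cons] at h1
      omega
    refine ⟨some s, ?_⟩
    rw [eq_mk_cons hx, hw]
    change gen s = gen s * 1
    rw [mul_one]

theorem norm_gO (o : Option Lt) : (gO o).norm ≤ 1 ∧ ((gO o).norm = 0 → o = none) := by
  cases o with
  | none => exact ⟨by simp [gO], fun _ => rfl⟩
  | some s =>
    constructor
    · exact (norm_gen s).le
    · intro h
      have := norm_gen s
      simp only [gO] at h
      omega

theorem abs_zO (o : Option Bool) : (zO o).natAbs ≤ 1 ∧ ((zO o).natAbs = 0 → o = none) := by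
  rcases o with _ | (_ | _) <;> simp [zO]

theorem exists_zO {k : ℤ} (h : k.natAbs ≤ 1) : ∃ o, zO o = k := by
  have h1 : k = 0 ∨ k = 1 ∨ k = -1 := by omega
  rcases h1 with rfl | rfl | rfl
  · exact ⟨none, rfl⟩
  · exact ⟨some true, rfl⟩
  · exact ⟨some false, rfl⟩

/-- the neighbours of `v` -/
def nbr (v : F × ℤ) : Option Lt × Option Bool ↪ F × ℤ :=
  ⟨fun q => (v.1 * gO q.1, v.2 + zO q.2), by
    intro a b h
    have h1 := (Prod.mk.inj h).1
    have h2 := (Prod.mk.inj h).2
    exact Prod.ext (gO_inj (mul_left_cancel h1)) (zO_inj (add_left_cancel h2))⟩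

theorem nbr_apply (v : F × ℤ) (q) : nbr v q = (v.1 * gO q.1, v.2 + zO q.2) := rfl

theorem GS_adj_iff (v u : F × ℤ) : GS.Adj v u ↔
    u ∈ ((Finset.univ : Finset (Option Lt × Option Bool)).erase (none, none)).map (nbr v) := by
  rw [Finset.mem_map]
  constructor
  · intro h
    have h1 : DS v u = 1 := h
    rw [geoS.symm] at h1
    unfold DS at h1
    obtain ⟨o, ho⟩ := norm_le_one (g := v.1⁻¹ * u.1) (by omega)
    obtain ⟨z, hz⟩ := exists_zO (k := u.2 - v.2) (by omega)
    refine ⟨(o, z), ?_, ?_⟩
    · rw [Finset.mem_erase]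
      refine ⟨?_, Finset.mem_univ _⟩
      intro h2
      have h3 : o = none := congrArg Prod.fst h2
      have h4 : z = none := congrArg Prod.snd h2
      subst h3 h4
      rw [← ho, ← hz] at h1
      simp [gO, zO] at h1
    · rw [nbr_apply]
      refine Prod.ext ?_ ?_
      · change v.1 * gO o = u.1
        rw [ho]; group
      · change v.2 + zO z = u.2
        omega
  · rintro ⟨⟨o, z⟩, hq, rfl⟩
    rw [Finset.mem_erase] at hq
    change DS v _ = 1
    rw [geoS.symm, nbr_apply]
    unfold DS
    rw [show (v.1⁻¹ * (v.1 * gO o, v.2 + zO z).1) = gO o by simp,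
      show (v.1 * gO o, v.2 + zO z).2 - v.2 = zO z by simp]
    have h1 := norm_gO o
    have h2 := abs_zO z
    by_contra hcon
    have h3 : (gO o).norm = 0 := by omega
    have h4 : (zO z).natAbs = 0 := by omega
    exact hq.1 (by rw [h1.2 h3, h2.2 h4])

noncomputable instance instLF : GS.LocallyFinite := fun v => by
  have h : GS.neighborSet v =
      ((((Finset.univ : Finset (Option Lt × Option Bool)).erase (none, none)).map (nbr v) :
        Finset (F × ℤ)) : Set (F × ℤ)) := by
    ext u
    rw [mem_neighborSet, GS_adj_iff, Finset.mem_coe]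
  rw [h]
  infer_instance

theorem GS_neighborFinset (v : F × ℤ) [Fintype (GS.neighborSet v)] : GS.neighborFinset v =
    ((Finset.univ : Finset (Option Lt × Option Bool)).erase (none, none)).map (nbr v) := by
  ext u
  rw [mem_neighborFinset, GS_adj_iff]

noncomputable instance instLFC : GC.LocallyFinite := fun v => by
  apply Set.Finite.fintype
  refine (Finset.finite_toSet
    ((Finset.univ : Finset (Option Lt × Option Bool)).map (nbr v))).subset ?_
  intro u hu
  have h1 : DC v u = 1 := hu
  rw [geoC.symm] at h1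
  unfold DC at h1
  obtain ⟨o, ho⟩ := norm_le_one (g := v.1⁻¹ * u.1) (by omega)
  obtain ⟨z, hz⟩ := exists_zO (k := u.2 - v.2) (by omega)
  rw [Finset.mem_coe, Finset.mem_map]
  refine ⟨(o, z), Finset.mem_univ _, ?_⟩
  rw [nbr_apply]
  refine Prod.ext ?_ ?_
  · change v.1 * gO o = u.1
    rw [ho]; group
  · change v.2 + zO z = u.2
    omega

/-! ### the survival number of the strong product -/

/-- the height index of a letter -/
def idx (s : Lt) : ℕ := 1 + 2 * (if s.1 then 1 else 0) + (if s.2 then 1 else 0)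

theorem idx_inj {s t : Lt} (h : idx s = idx t) : s = t := by
  rcases s with ⟨_ | _, _ | _⟩ <;> rcases t with ⟨_ | _, _ | _⟩ <;> simp_all [idx]

theorem idx_bd (s : Lt) : 1 ≤ idx s ∧ idx s ≤ 4 := by
  rcases s with ⟨_ | _, _ | _⟩ <;> simp [idx]

/-- sign -/
def sg (e : Bool) : ℤ := if e then 1 else -1

/-- the eight sites -/
def site (N : ℕ) (q : Lt × Bool) : F × ℤ := (gen q.1, sg q.2 * ((idx q.1 * N : ℕ) : ℤ))

theorem site_gap (N : ℕ) (q r : Lt × Bool) (h : q ≠ r) :
    N ≤ (sg q.2 * ((idx q.1 * N : ℕ) : ℤ) - sg r.2 * ((idx r.1 * N : ℕ) : ℤ)).natAbs := by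
  have key : sg q.2 * (idx q.1 : ℤ) - sg r.2 * (idx r.1 : ℤ) ≠ 0 := by
    intro h0
    apply h
    have h1 := idx_bd q.1
    have h2 := idx_bd r.1
    rcases q with ⟨s, _ | _⟩ <;> rcases r with ⟨t, _ | _⟩ <;> simp [sg] at h0 h1 h2 ⊢
    · exact idx_inj (by omega)
    · omega
    · omega
    · exact idx_inj (by omega)
  have h1 : sg q.2 * ((idx q.1 * N : ℕ) : ℤ) - sg r.2 * ((idx r.1 * N : ℕ) : ℤ) =
      (sg q.2 * (idx q.1 : ℤ) - sg r.2 * (idx r.1 : ℤ)) * N := by push_cast; ring
  rw [h1, Int.natAbs_mul, Int.natAbs_natCast]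
  exact Nat.le_mul_of_pos_left N (Int.natAbs_pos.2 key)

theorem beat (N : ℕ) (hN : 1 ≤ N) (u : F × ℤ) (hu : 4 * N < DS u (1, 0)) :
    ∃ q, DS u (site N q) < DS u (1, 0) := by
  obtain ⟨x, j⟩ := u
  have hD : DS (x, j) (1, 0) = max x.norm j.natAbs := by simp [DS]
  rw [hD] at hu ⊢
  -- choose a letter
  have hs : ∃ s : Lt, ((gen s)⁻¹ * x).norm < max x.norm j.natAbs := by
    by_cases hx : x = 1
    · refine ⟨(true, true), ?_⟩
      rw [hx, mul_one, FreeGroup.norm_inv_eq, norm_gen, FreeGroup.norm_one]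
      rw [hx, FreeGroup.norm_one] at hu
      omega
    · obtain ⟨s, w, hw⟩ := exists_letter hx
      have := norm_drop hw
      exact ⟨s, by omega⟩
  obtain ⟨s, hs⟩ := hs
  have hb := idx_bd s
  have hm1 : N ≤ idx s * N := Nat.le_mul_of_pos_left N hb.1
  have hm2 : idx s * N ≤ 4 * N := Nat.mul_le_mul_right N hb.2
  refine ⟨(s, decide (0 ≤ j)), ?_⟩
  simp only [DS, site]
  generalize idx s * N = m at hm1 hm2
  apply max_lt hs
  by_cases hj : 0 ≤ j
  · simp only [hj, decide_true, sg]
    simp
    omega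
  · simp only [hj, decide_false, sg]
    simp
    omega

theorem GS_survival : survival GS ≤ 8 := by
  classical
  refine survival_le GS GS_conn 8 ?_
  intro d
  set N := d + 1 with hN
  have hinj : Function.Injective (site N) := by
    intro q r h
    by_contra hne
    have h1 := site_gap N q r hne
    have h2 : (site N q).2 = (site N r).2 := by rw [h]
    simp only [site] at h2
    rw [h2] at h1
    simp at h1
  have hcell : ∀ q : Lt × Bool, N ≤ (sg q.2 * ((idx q.1 * N : ℕ) : ℤ)).natAbs := by
    intro q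
    have h1 : N ≤ idx q.1 * N := Nat.le_mul_of_pos_left N (idx_bd q.1).1
    rcases q with ⟨s, _ | _⟩
    · simp only [sg] at h1 ⊢
      simp only [Bool.false_eq_true, if_false]
      omega
    · simp only [sg] at h1 ⊢
      simp only [if_true]
      omega
  refine ⟨insert (1, 0) (Finset.univ.image (site N)), ?_, ?_, (1, 0), Finset.mem_insert_self _ _, ?_⟩
  · rw [Finset.card_insert_of_notMem, Finset.card_image_of_injective _ hinj]
    · simp
    · intro h
      rw [Finset.mem_image] at h
      obtain ⟨q, -, hq⟩ := h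
      have h1 := congrArg Prod.fst hq
      exact gen_ne_one _ h1
  · intro v₁ h₁ v₂ h₂ hne
    rw [Finset.mem_insert, Finset.mem_image] at h₁ h₂
    rw [GS_dist]
    rcases h₁ with rfl | ⟨q, -, rfl⟩ <;> rcases h₂ with rfl | ⟨r, -, rfl⟩
    · exact absurd rfl hne
    · have h1 := hcell r
      rw [geoS.symm]
      simp only [DS, site, sub_zero]
      omega
    · have h1 := hcell q
      simp only [DS, site, sub_zero]
      omega
    · have h1 := site_gap N q r (fun h => hne (by rw [h]))
      simp only [DS, site]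
      omega
  · refine (finite_ball GS GS_conn (1, 0) (4 * N)).subset ?_
    intro u hu
    change GS.dist u (1, 0) ≤ 4 * N
    by_contra hcon
    rw [GS_dist] at hcon
    obtain ⟨q, hq⟩ := beat N (by omega) u (by omega)
    have h1 := hu (site N q) (Finset.mem_insert_of_mem
      (Finset.mem_image_of_mem _ (Finset.mem_univ _)))
    rw [GS_dist, GS_dist] at h1
    omega

end Pool.Agent.Q256.TreeZ
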