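import Pool.Agent.Q256.Prod

/-!
# Local Zariski closures and the Veronese embedding
-/

set_option autoImplicit false

namespace Pool.Agent.Q256.Ver

open MvPolynomial Topology Pool.Agent.Q256.Orb Pool.Agent.Q256.Prod

universe u v

section rep

variable {K : Type u} [Field K] {κ : Type} [Fintype κ] [DecidableEq κ]

/-- A form of degree `card ι` is a linear combination of products indexed by `ι`. -/
theorem hom_rep {ι : Type} [Fintype ι] [DecidableEq ι] {g : MvPolynomial κ K}
    (hg : g.IsHomogeneous (Fintype.card ι)) :
    ∃ c : (ι → κ) → K, g = ∑ a : ι → κ, C (c a) * ∏ k, X (a k) := by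
  have hmon : ∀ m : κ →₀ ℕ, m.degree = Fintype.card ι → ∀ b : K,
      ∃ c : (ι → κ) → K, monomial m b = ∑ a : ι → κ, C (c a) * ∏ k, X (a k) := by
    intro m hm b
    obtain ⟨l, hl⟩ : ∃ l : List κ, (l : Multiset κ) = Finsupp.toMultiset m :=
      ⟨_, Multiset.coe_toList _⟩
    have hlen : l.length = Fintype.card ι := by
      rw [← Multiset.coe_card, hl, Finsupp.card_toMultiset, ← hm]
      rfl
    let e : ι ≃ Fin l.length := (Fintype.equivFin ι).trans (finCongr hlen.symm)
    let a : ι → κ := fun k => l.get (e k)
    have ha : (∏ k, (X (a k) : MvPolynomial κ K)) = monomial m 1 := by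
      have h1 : (∏ k, (X (a k) : MvPolynomial κ K)) = ∏ k : Fin l.length, X (l.get k) :=
        Fintype.prod_equiv e _ _ fun k => rfl
      rw [h1, ← List.prod_ofFn]
      have h2 : (List.ofFn fun k : Fin l.length => (X (l.get k) : MvPolynomial κ K)) =
          l.map X :=
        List.ext_getElem (by simp) (by intros; simp)
      rw [h2, ← Multiset.prod_coe, ← Multiset.map_coe, hl]
      rw [Finsupp.toMultiset_map, Finsupp.prod_toMultiset, Finsupp.prod_mapDomain_index
        (by simp) (by intros; rw [pow_add])]
      rw [monomial_eq, C_1, one_mul]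
    refine ⟨fun a' => if a' = a then b else 0, ?_⟩
    rw [Finset.sum_eq_single a]
    · dsimp only
      rw [if_pos rfl, ha, C_mul_monomial, mul_one]
    · intro a' _ ha'
      dsimp only
      rw [if_neg ha', C_0, zero_mul]
    · simp
  have h0 : g = ∑ m ∈ g.support, monomial m (coeff m g) := g.as_sum
  rw [h0]
  have hd : ∀ m ∈ g.support, m.degree = Fintype.card ι := by
    intro m hm
    have h2 := hg (mem_support_iff.1 hm)
    rw [← h2, Finsupp.degree_eq_weight_one]
    rfl
  clear h0
  revert hd
  induction g.support using Finset.induction_on with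
  | empty => exact fun _ => ⟨fun _ => 0, by simp⟩
  | insert m s hms ih =>
    intro hd
    obtain ⟨c, hc⟩ := ih fun m' hm' => hd m' (Finset.mem_insert_of_mem hm')
    obtain ⟨c', hc'⟩ := hmon m (hd m (Finset.mem_insert_self m s)) (coeff m g)
    refine ⟨c' + c, ?_⟩
    rw [Finset.sum_insert hms, hc, hc', ← Finset.sum_add_distrib]
    refine Finset.sum_congr rfl fun a _ => ?_
    rw [Pi.add_apply, C_add, add_mul]

/-- vanishing on the line through `y` means vanishing of the homogeneous components -/
theorem comp_zero [Infinite K] {f : MvPolynomial κ K} {y : κ → K} :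
    (∀ t : K, eval (t • y) f = 0) ↔ ∀ e, eval y (homogeneousComponent e f) = 0 := by
  have hexp : ∀ t : K, eval (t • y) f =
      ∑ e ∈ Finset.range (f.totalDegree + 1), t ^ e * eval y (homogeneousComponent e f) := by
    intro t
    conv_lhs => rw [← sum_homogeneousComponent f]
    rw [map_sum]
    exact Finset.sum_congr rfl fun e _ => eval_smul_hom (homogeneousComponent_isHomogeneous e f) t y
  constructor
  · intro h e
    by_cases he : e < f.totalDegree + 1
    · let p : Polynomial K := ∑ e ∈ Finset.range (f.totalDegree + 1),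
        Polynomial.C (eval y (homogeneousComponent e f)) * Polynomial.X ^ e
      have hp : p = 0 := by
        refine Polynomial.funext fun t => ?_
        rw [Polynomial.eval_zero, ← h t, hexp, Polynomial.eval_finsetSum]
        refine Finset.sum_congr rfl fun e _ => ?_
        rw [Polynomial.eval_mul, Polynomial.eval_C, Polynomial.eval_pow, Polynomial.eval_X,
          mul_comm]
      have h1 : p.coeff e = eval y (homogeneousComponent e f) := by
        simp only [p, Polynomial.finsetSum_coeff, Polynomial.coeff_C_mul, Polynomial.coeff_X_pow]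
        rw [Finset.sum_eq_single e]
        · simp
        · intro b _ hb
          simp [Ne.symm hb]
        · intro h'
          exact absurd (Finset.mem_range.2 he) h'
      rw [← h1, hp, Polynomial.coeff_zero]
    · rw [homogeneousComponent_eq_zero e f (by omega), map_zero]
  · intro h t
    rw [hexp]
    exact Finset.sum_eq_zero fun e _ => by rw [h e, mul_zero]

end rep

section ver

variable {κ : Type} {d : ℕ}

/-- the Veronese map of degree `d + 1` -/
def vr {R : Type*} [CommMonoid R] (d : ℕ) (y : κ → R) (a : Fin (d + 1) → κ) : R := ∏ k, y (a k)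

/-- the equations of the image of the Veronese map -/
def Sw {R : Type*} [Mul R] (z : (Fin (d + 1) → κ) → R) : Prop :=
  ∀ (a b : Fin (d + 1) → κ) (k l : Fin (d + 1)),
    z a * z b = z (Function.update a k (b l)) * z (Function.update b l (a k))

theorem Sw_vr {R : Type*} [CommRing R] (y : κ → R) : Sw (vr d y) := by
  intro a b k l
  have h : ∀ (a : Fin (d + 1) → κ) (k : Fin (d + 1)) (i : κ),
      vr d y (Function.update a k i) = y i * ∏ m ∈ Finset.univ \ {k}, y (a m) := by
    intro a k i
    have h1 : vr d y (Function.update a k i) =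
        ∏ m, (Function.update (fun m => y (a m)) k (y i)) m := by
      refine Finset.prod_congr rfl fun m _ => ?_
      by_cases hm : m = k
      · subst hm
        simp
      · simp [Function.update_of_ne hm]
    rw [h1, Finset.prod_update_of_mem (Finset.mem_univ k)]
  have h' : ∀ (a : Fin (d + 1) → κ) (k : Fin (d + 1)),
      vr d y a = y (a k) * ∏ m ∈ Finset.univ \ {k}, y (a m) := by
    intro a k
    conv_lhs => rw [← Function.update_eq_self k a]
    exact h a k (a k)
  rw [h a k, h b l, h' a k, h' b l]
  ring

theorem vr_smul {R : Type*} [CommRing R] (c : R) (y : κ → R) :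
    vr d (fun i => c * y i) = fun a => c ^ (d + 1) * vr d y a := by
  funext a
  simp only [vr]
  rw [Finset.prod_mul_distrib, Finset.prod_const, Finset.card_univ, Fintype.card_fin]

variable {K : Type u} [Field K]

theorem Sw_const {z : (Fin (d + 1) → κ) → K} (hz : Sw z) (hz0 : z ≠ 0) :
    ∃ j, z (fun _ => j) ≠ 0 := by
  classical
  obtain ⟨a, ha⟩ : ∃ a, z a ≠ 0 := Function.ne_iff.1 hz0
  refine ⟨a 0, ?_⟩
  have key : ∀ s : Finset (Fin (d + 1)), z (fun k => if k ∈ s then a 0 else a k) ≠ 0 := by
    intro s
    induction s using Finset.induction_on with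
    | empty => simpa using ha
    | insert k0 s hk ih =>
      have h := hz (fun k => if k ∈ s then a 0 else a k) (fun k => if k ∈ s then a 0 else a k) k0 0
      have h1 : (if (0 : Fin (d + 1)) ∈ s then a 0 else a 0) = a 0 := by simp
      simp only [h1] at h
      have h2 : Function.update (fun k => if k ∈ s then a 0 else a k) k0 (a 0) =
          fun k => if k ∈ insert k0 s then a 0 else a k := by
        funext k
        by_cases hk' : k = k0
        · subst hk'
          simp
        · simp [hk']
      rw [h2] at h
      intro h3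
      rw [h3, zero_mul] at h
      exact ih (mul_self_eq_zero.1 h)
  have := key Finset.univ
  simpa using this

theorem Sw_chart {z : (Fin (d + 1) → κ) → K} (hz : Sw z) {j : κ} (hj : z (fun _ => j) ≠ 0)
    (b : Fin (d + 1) → κ) :
    z b * z (fun _ => j) ^ d =
      vr d (fun i => z (Function.update (fun _ => j) 0 i)) b := by
  classical
  have h0 : ∀ k i, z (Function.update (fun _ => j) k i) =
      z (Function.update (fun _ => j) 0 i) := by
    intro k i
    have h := hz (Function.update (fun _ => j) k i) (fun _ => j) k 0
    rw [Function.update_idem, Function.update_self] at h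
    have h1 : (Function.update (fun _ : Fin (d + 1) => j) k j) = fun _ => j := by
      exact Function.update_eq_self k (fun _ : Fin (d + 1) => j)
    rw [h1, mul_comm] at h
    exact mul_left_cancel₀ hj h
  have key : ∀ s : Finset (Fin (d + 1)), z b * z (fun _ => j) ^ s.card =
      (∏ k ∈ s, z (Function.update (fun _ => j) k (b k))) * z (fun k => if k ∈ s then j else b k) := by
    intro s
    induction s using Finset.induction_on with
    | empty => simp
    | insert k0 s hk ih =>
      rw [Finset.card_insert_of_notMem hk, pow_succ, ← mul_assoc, ih, Finset.prod_insert hk]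
      have h := hz (fun _ => j) (fun k => if k ∈ s then j else b k) k0 k0
      have h1 : Function.update (fun k => if k ∈ s then j else b k) k0 j =
          fun k => if k ∈ insert k0 s then j else b k := by
        funext k
        by_cases hk' : k = k0
        · subst hk'
          simp
        · simp [hk']
      rw [h1] at h
      simp only [if_neg hk] at h
      rw [mul_assoc, mul_comm (z fun k => if k ∈ s then j else b k), h]
      ring
  have h1 := key Finset.univ
  rw [Finset.card_univ, Fintype.card_fin] at h1
  have h2 : (fun k => if k ∈ (Finset.univ : Finset (Fin (d + 1))) then j else b k) =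
      fun _ => j := by
    funext k
    simp
  rw [h2, pow_succ, ← mul_assoc] at h1
  rw [mul_right_cancel₀ hj h1]
  exact Finset.prod_congr rfl fun k _ => h0 k (b k)

/-- the cone defined by forms of degree `d + 1` with the coefficients `c ∈ 𝒞` -/
def cA [Fintype κ] [DecidableEq κ] (𝒞 : Set ((Fin (d + 1) → κ) → K)) : Set (κ → K) :=
  {y | ∀ c ∈ 𝒞, ∑ a, c a * vr d y a = 0}

/-- its image under the Veronese map -/
def cB [Fintype κ] [DecidableEq κ] (𝒞 : Set ((Fin (d + 1) → κ) → K)) :
    Set ((Fin (d + 1) → κ) → K) :=
  {z | Sw z ∧ ∀ c ∈ 𝒞, ∀ b, (∑ a, c a * z a) * z b = 0}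

variable [Fintype κ] [DecidableEq κ]

theorem vr_mem {𝒞 : Set ((Fin (d + 1) → κ) → K)} {y : κ → K} (hy : y ∈ cA 𝒞) :
    vr d y ∈ cB 𝒞 := by
  refine ⟨Sw_vr y, fun c hc b => ?_⟩
  rw [hy c hc, zero_mul]

theorem vr_ne {R : Type*} [CommRing R] [IsDomain R] {y : κ → R} (hy : y ≠ 0) : vr d y ≠ 0 := by
  obtain ⟨j, hj⟩ := Function.ne_iff.1 hy
  intro h
  have := congrFun h (fun _ => j)
  simp only [vr, Pi.zero_apply, Finset.prod_const] at this
  exact hj (pow_eq_zero_iff (by simp) |>.1 this)

/-- a nonzero point of the image is a multiple of the image of a point -/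
theorem mem_cA {𝒞 : Set ((Fin (d + 1) → κ) → K)} {z : (Fin (d + 1) → κ) → K} (hz : z ∈ cB 𝒞)
    {j : κ} (hj : z (fun _ => j) ≠ 0) :
    (fun i => z (Function.update (fun _ => j) 0 i)) ∈ cA 𝒞 := by
  intro c hc
  have h1 : ∀ a, vr d (fun i => z (Function.update (fun _ => j) 0 i)) a =
      z a * z (fun _ => j) ^ d := fun a => (Sw_chart hz.1 hj a).symm
  simp only [h1, ← mul_assoc]
  rw [← Finset.sum_mul]
  have h2 := hz.2 c hc (fun _ => j)
  rw [(mul_eq_zero.1 h2).resolve_right hj, zero_mul]

end ver

section main

variable {K : Type u} [Field K] {L : Type v} [NontriviallyNormedField L] {κ : Type} [Fintype κ]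
  [DecidableEq κ] {d : ℕ}

/-- The local closures of a cone are determined by the local closures of its image under the
Veronese map. -/
theorem loc_vr [Infinite K] (σ : K →+* L) (𝒞 : Set ((Fin (d + 1) → κ) → K)) {x : κ → L}
    (hx : x ≠ 0) : loc σ (cA 𝒞) x = {f | ∀ y : κ → K, y ≠ 0 →
      vr d y ∈ Zer (loc σ (cB 𝒞) (vr d x)) → ∀ t : K, eval (t • y) f = 0} := by
  have hσv : ∀ (c : L) (y : κ → K), vr d (fun i => c * σ (y i)) =
      fun a => c ^ (d + 1) * σ (vr d y a) := by
    intro c y
    rw [vr_smul]
    funext a
    simp only [vr, map_prod]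
  have hcv : Continuous fun x : κ → L => vr d x := by
    refine continuous_pi fun a => ?_
    exact continuous_finsetProd _ fun k _ => continuous_apply _
  refine Set.Subset.antisymm ?_ ?_
  · intro f hf y hy hyZ
    obtain ⟨U, hU, hUf⟩ := hf
    obtain ⟨j, hj⟩ : ∃ j, x j ≠ 0 := Function.ne_iff.1 hx
    rw [comp_zero]
    intro e
    obtain ⟨j', hj'⟩ : ∃ j', y j' ≠ 0 := Function.ne_iff.1 hy
    -- the form of degree `e (d + 1)`
    let h : MvPolynomial κ K := homogeneousComponent e f * X j' ^ (d * e)
    have hh : h.IsHomogeneous (Fintype.card (Fin e × Fin (d + 1))) := by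
      have h1 : Fintype.card (Fin e × Fin (d + 1)) = e + 1 * (d * e) := by
        simp
        ring
      rw [h1]
      exact (homogeneousComponent_isHomogeneous e f).mul ((isHomogeneous_X K j').pow (d * e))
    obtain ⟨c, hc⟩ := hom_rep hh
    let F : MvPolynomial (Fin (d + 1) → κ) K :=
      ∑ a : Fin e × Fin (d + 1) → κ, C (c a) * ∏ p : Fin e, X fun k => a (p, k)
    have hFt : ∀ (t : K) (z : (Fin (d + 1) → κ) → K), eval (t • z) F = t ^ e * eval z F := by
      intro t z
      simp only [F, map_sum, map_mul, eval_C, map_prod, eval_X, Pi.smul_apply, smul_eq_mul,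
        Finset.prod_mul_distrib, Finset.prod_const, Finset.card_univ, Fintype.card_fin,
        Finset.mul_sum]
      refine Finset.sum_congr rfl fun a _ => ?_
      ring
    have hFv : ∀ y : κ → K, eval (vr d y) F = eval y h := by
      intro y
      rw [hc]
      simp only [F, map_sum, map_mul, eval_C, map_prod, eval_X, vr, Fintype.prod_prod_type]
    have hFJ : F ∈ loc σ (cB 𝒞) (vr d x) := by
      -- the chart
      let φ : ((Fin (d + 1) → κ) → L) → (κ → L) := fun w i =>
        (x j ^ d)⁻¹ * w (Function.update (fun _ => j) 0 i)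
      have hφ : Continuous φ := continuous_pi fun i => continuous_const.mul (continuous_apply _)
      have hφx : φ (vr d x) = x := by
        funext i
        simp only [φ, vr]
        rw [Fin.prod_univ_succ, Function.update_self]
        have h2 : ∀ k : Fin d, x (Function.update (fun _ => j) 0 i k.succ) = x j := by
          intro k
          rw [Function.update_of_ne (Fin.succ_ne_zero k)]
        simp only [h2, Finset.prod_const, Finset.card_univ, Fintype.card_fin]
        rw [mul_comm (x i), ← mul_assoc, inv_mul_cancel₀ (pow_ne_zero d hj), one_mul]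
      have hne : ∀ᶠ w in 𝓝 (vr d x), w (fun _ => j) ≠ 0 := by
        refine (continuous_apply (fun _ => j)).continuousAt.eventually_ne ?_
        simp only [vr, Finset.prod_const]
        exact pow_ne_zero _ hj
      refine ⟨φ ⁻¹' U ∩ {w | w (fun _ => j) ≠ 0}, Filter.inter_mem
        (hφ.continuousAt.preimage_mem_nhds (by rwa [hφx])) hne, ?_⟩
      rintro z hz0 hz ⟨c', hc', hcU, hcj⟩ t
      have hzj : z (fun _ => j) ≠ 0 := by
        intro h0
        exact hcj (by simp [h0])
      let y' : κ → K := fun i => z (Function.update (fun _ => j) 0 i)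
      have hy' : y' ∈ cA 𝒞 := mem_cA hz hzj
      have hy'0 : y' ≠ 0 := by
        intro h0
        have := congrFun h0 j
        simp only [y', Pi.zero_apply] at this
        rw [Function.update_eq_self 0 (fun _ : Fin (d + 1) => j)] at this
        exact hzj this
      have hzy : z = ((z fun _ => j) ^ d)⁻¹ • vr d y' := by
        funext a
        rw [Pi.smul_apply, smul_eq_mul, ← Sw_chart hz.1 hzj a, mul_comm, mul_assoc,
          mul_inv_cancel₀ (pow_ne_zero d hzj), mul_one]
      have hmem : (fun i => ((x j ^ d)⁻¹ * c') * σ (y' i)) ∈ U := by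
        have h3 : φ (fun i => c' * σ (z i)) = fun i => ((x j ^ d)⁻¹ * c') * σ (y' i) := by
          funext i
          simp only [φ, y']
          ring
        rw [← h3]
        exact hcU
      have hf0 := hUf y' hy'0 hy' ⟨_, mul_ne_zero (inv_ne_zero (pow_ne_zero d hj)) hc', hmem⟩
      rw [comp_zero] at hf0
      rw [hFt, hzy, hFt, hFv]
      simp only [h, map_mul, hf0 e, zero_mul, mul_zero]
    have h1 := hyZ F hFJ
    rw [hFv] at h1
    simp only [h, map_mul, map_pow, eval_X] at h1
    exact (mul_eq_zero.1 h1).resolve_right (pow_ne_zero _ hj')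
  · intro f hf
    obtain ⟨W, hW, hWJ⟩ := loc_uniform σ (cB 𝒞) (vr d x)
    refine ⟨(fun x : κ → L => vr d x) ⁻¹' W, hcv.continuousAt.preimage_mem_nhds hW, ?_⟩
    rintro y hy0 hy ⟨c, hc, hcW⟩
    refine hf y hy0 fun F hF => ?_
    have h1 := hWJ F hF (vr d y) (vr_ne hy0) (vr_mem hy) ⟨c ^ (d + 1), pow_ne_zero _ hc, ?_⟩ 1
    · rwa [one_smul] at h1
    · rw [← hσv]
      exact hcW

end main

end Pool.Agent.Q256.Ver
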